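import Mathlib
import Pool.Agent.H302R2.Deg2Final
import Pool.Agent.H302R2.Deg2Main

/-!
# Class functions with nonnegative multiplicities on the solvable subgroups

`IsSol θ`: `θ` is a class function, and for every solvable subgroup `H` and every linear character
of `H` the multiplicity in the restriction of `θ` is a nonnegative integer.
-/

set_option autoImplicit false
set_option linter.unusedSectionVars false

namespace Pool.Agent.E8helper84.EH

open Pool.Agent.H302R2

universe u

/-- A class function whose restriction to every solvable subgroup has nonnegative integral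
multiplicities at the linear characters. -/
structure IsSol {G : Type*} [Group G] (θ : G → ℂ) : Prop where
  conj : ∀ g h : G, θ (h * g * h⁻¹) = θ g
  mult : ∀ H : Subgroup G, Group.IsSolvable H → ∀ χ : H →* ℂˣ, ∃ n : ℕ,
    ∑ᶠ h : H, θ h * (((χ h)⁻¹ : ℂˣ) : ℂ) = (n : ℂ) * (Nat.card H : ℂ)

section

variable {G : Type u} [Group G] [Finite G] {θ : G → ℂ}

lemma sum_map (H : Subgroup G) (K : Subgroup H) (χ : K →* ℂˣ) (θ : G → ℂ) :
    ∑ᶠ h : K.map H.subtype, θ h *
      ((((χ.comp (K.equivMapOfInjective H.subtype H.subtype_injective).symm.toMonoidHom) h)⁻¹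
        : ℂˣ) : ℂ)
      = ∑ᶠ h : K, θ ((h : H) : G) * (((χ h)⁻¹ : ℂˣ) : ℂ) := by
  rw [← finsum_comp_equiv (K.equivMapOfInjective H.subtype H.subtype_injective).toEquiv]
  refine finsum_congr fun h => ?_
  simp

/-- restriction -/
lemma IsSol.res (hθ : IsSol θ) (H : Subgroup G) : IsSol (fun h : H => θ h) where
  conj g h := by
    have := hθ.conj (g : G) (h : G)
    simpa using this
  mult K hK χ := by
    have hs : Group.IsSolvable (K.map H.subtype) :=
      Group.isSolvable_of_surjective (f := (K.equivMapOfInjective H.subtype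
        H.subtype_injective).toMonoidHom) (MulEquiv.surjective _)
    obtain ⟨n, hn⟩ := hθ.mult (K.map H.subtype) hs
      (χ.comp (K.equivMapOfInjective H.subtype H.subtype_injective).symm.toMonoidHom)
    refine ⟨n, ?_⟩
    rw [sum_map] at hn
    rw [hn, Nat.card_congr (K.equivMapOfInjective H.subtype H.subtype_injective).toEquiv]

lemma IsSol.heil (hθ : IsSol θ) (hG : Group.IsSolvable G) : IsHeilbronn θ where
  conj := hθ.conj
  mult H χ := hθ.mult H (by infer_instance) χ

/-- pull back to a solvable group -/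
lemma IsSol.comp (hθ : IsSol θ) {E : Type*} [Group E] [Finite E] (hE : Group.IsSolvable E)
    (φ : E →* G) : IsHeilbronn (fun e => θ (φ e)) := by
  have hs : Group.IsSolvable φ.range :=
    Group.isSolvable_of_surjective (f := φ.rangeRestrict) φ.rangeRestrict_surjective
  exact ((hθ.res φ.range).heil hs).comp φ.rangeRestrict

lemma IsSol.comm (hθ : IsSol θ) {E : Type*} [Group E] [Finite E]
    (hE : ∀ a b : E, a * b = b * a) (φ : E →* G) : IsHeilbronn (fun e => θ (φ e)) :=
  hθ.comp (Group.isSolvable_of_comm hE) φ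

lemma IsSol.zp (hθ : IsSol θ) (g : G) :
    IsHeilbronn (fun e : Subgroup.zpowers g => θ e) :=
  hθ.comm (zpowers_comm g) (Subgroup.zpowers g).subtype

lemma IsSol.exists_deg (hθ : IsSol θ) : ∃ r : ℕ, θ 1 = r := by
  obtain ⟨r, hr⟩ := (hθ.zp 1).exists_deg
  exact ⟨r, hr⟩

lemma IsSol.norm_le (hθ : IsSol θ) (g : G) : ‖θ g‖ ≤ (θ 1).re :=
  (hθ.zp g).norm_le ⟨g, Subgroup.mem_zpowers g⟩

lemma pair_comm {x y : G} (hxy : x * y = y * x) (a b : Subgroup.closure ({x, y} : Set G)) :
    a * b = b * a := by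
  have hcomm : ∀ a ∈ ({x, y} : Set G), ∀ b ∈ ({x, y} : Set G), a * b = b * a := by
    intro a ha b hb
    rcases ha with rfl | ha <;> rcases hb with rfl | hb
    · rfl
    · rw [Set.mem_singleton_iff.mp hb]; exact hxy
    · rw [Set.mem_singleton_iff.mp ha]; exact hxy.symm
    · rw [Set.mem_singleton_iff.mp ha, Set.mem_singleton_iff.mp hb]
  exact (Subgroup.isMulCommutative_closure hcomm).is_comm.comm a b

lemma IsSol.cl (hθ : IsSol θ) {x y : G} (hxy : x * y = y * x) :
    IsHeilbronn (fun e : Subgroup.closure ({x, y} : Set G) => θ e) :=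
  hθ.comm (pair_comm hxy) (Subgroup.closure ({x, y} : Set G)).subtype

lemma IsSol.mul_of_comm (hθ : IsSol θ) {x y : G} (hxy : x * y = y * x) (hy : θ y = θ 1) :
    θ (x * y) = θ x := by
  have h := (hθ.cl hxy).mul_of_comm (x := ⟨x, Subgroup.subset_closure (by simp)⟩)
    (y := ⟨y, Subgroup.subset_closure (by simp)⟩) (Subtype.ext hxy) hy
  exact h

lemma IsSol.dd_mul (hθ : IsSol θ) (h1 : θ 1 = 2) {x y : G} (hxy : x * y = y * x) :
    dd θ (x * y) = dd θ x * dd θ y := by
  have h := (hθ.cl hxy).dd_mul (by simpa using h1)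
    (x := ⟨x, Subgroup.subset_closure (by simp)⟩)
    (y := ⟨y, Subgroup.subset_closure (by simp)⟩) (Subtype.ext hxy)
  exact h

lemma IsSol.dd_norm (hθ : IsSol θ) (h1 : θ 1 = 2) (x : G) : ‖dd θ x‖ = 1 :=
  (hθ.zp x).dd_norm (by simpa using h1) ⟨x, Subgroup.mem_zpowers x⟩

lemma IsSol.dd_conj (hθ : IsSol θ) (g h : G) : dd θ (h * g * h⁻¹) = dd θ g := by
  unfold dd
  rw [hθ.conj, conj_pow, hθ.conj]

/-- The determinant of a function of degree two is a linear character. -/
theorem IsSol.exists_det (hθ : IsSol θ) (h1 : θ 1 = 2) :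
    ∃ D : G →* ℂˣ, ∀ g, ((D g : ℂˣ) : ℂ) = dd θ g := by
  have hne : ∀ g, dd θ g ≠ 0 := fun g => by
    rw [← norm_ne_zero_iff, hθ.dd_norm h1]; norm_num
  let f : G → ℂˣ := fun g => Units.mk0 (dd θ g) (hne g)
  have hf : ∀ g h, f (g * h) = f g * f h := by
    apply mul_of_pgroups
    · intro g h
      apply Units.ext
      exact hθ.dd_conj g h
    · intro g n
      induction n with
      | zero => apply Units.ext; simp [f, dd_one h1]
      | succ n ih =>
        rw [pow_succ, pow_succ, ← ih]
        apply Units.ext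
        exact hθ.dd_mul h1 ((Commute.refl g).pow_left n).eq
    · intro p hp P hP x hx y hy
      have : Fact p.Prime := ⟨hp⟩
      apply Units.ext
      have hs : Group.IsSolvable P := by
        have : Group.IsNilpotent P := hP.isNilpotent
        infer_instance
      exact two_pgroup (p := p) (Nat.card P) P rfl hP (fun x => θ x) ((hθ.res P).heil hs)
        h1 ⟨x, hx⟩ ⟨y, hy⟩
  refine ⟨{ toFun := f, map_one' := ?_, map_mul' := hf }, fun g => rfl⟩
  apply Units.ext
  exact dd_one h1

/-- A function of degree one is a linear character. -/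
theorem IsSol.deg_one (hθ : IsSol θ) (h1 : θ 1 = 1) : ∃ ψ : G →* ℂˣ, ∀ g, θ g = (ψ g : ℂˣ) := by
  have hne : ∀ g, θ g ≠ 0 := fun g => by
    have h := (hθ.zp g).one_norm (by simpa using h1) ⟨g, Subgroup.mem_zpowers g⟩
    simp only at h
    rw [← norm_ne_zero_iff, h]; norm_num
  let f : G → ℂˣ := fun g => Units.mk0 (θ g) (hne g)
  have hf : ∀ g h, f (g * h) = f g * f h := by
    apply mul_of_pgroups
    · intro g h
      apply Units.ext
      exact hθ.conj g h
    · intro g n
      induction n with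
      | zero => apply Units.ext; simp [f, h1]
      | succ n ih =>
        rw [pow_succ, pow_succ, ← ih]
        apply Units.ext
        have hc : g ^ n * g = g * g ^ n := ((Commute.refl g).pow_left n).eq
        have h2 := (hθ.cl hc).one_comm_mul (by simpa using h1)
          (x := ⟨g ^ n, Subgroup.subset_closure (by simp)⟩)
          (y := ⟨g, Subgroup.subset_closure (by simp)⟩) (Subtype.ext hc)
        exact h2
    · intro p hp P hP x hx y hy
      have : Fact p.Prime := ⟨hp⟩
      apply Units.ext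
      have hs : Group.IsSolvable P := by
        have : Group.IsNilpotent P := hP.isNilpotent
        infer_instance
      exact one_pgroup (p := p) (Nat.card P) P rfl hP (fun x => θ x) ((hθ.res P).heil hs)
        h1 ⟨x, hx⟩ ⟨y, hy⟩
  refine ⟨{ toFun := f, map_one' := ?_, map_mul' := hf }, fun g => rfl⟩
  apply Units.ext
  exact h1

lemma IsSol.isIntegral_two (hθ : IsSol θ) (h1 : θ 1 = 2) (g : G) : IsIntegral ℤ (θ g) :=
  (hθ.zp g).isIntegral_two (by simpa using h1) ⟨g, Subgroup.mem_zpowers g⟩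

lemma hyp_solvable {U : Type*} [Group U] [Finite U] (h : Hyp U) : Group.IsSolvable U := by
  obtain ⟨c, -, hn, hp⟩ := h
  have hN : (Subgroup.zpowers c).Normal := ⟨fun x hx u => conj_zpowers hn u hx⟩
  have h1 : Group.IsSolvable (Subgroup.zpowers c) := Group.isSolvable_of_comm (zpowers_comm c)
  have hP : IsPGroup 2 (U ⧸ Subgroup.zpowers c) := by
    intro q
    obtain ⟨x, rfl⟩ := QuotientGroup.mk_surjective q
    obtain ⟨k, hk⟩ := hp x
    exact ⟨k, by rw [← QuotientGroup.mk_pow]; exact (QuotientGroup.eq_one_iff _).mpr hk⟩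
  have : Fact (Nat.Prime 2) := ⟨Nat.prime_two⟩
  have h2 : Group.IsSolvable (U ⧸ Subgroup.zpowers c) := by
    have : Group.IsNilpotent (U ⧸ Subgroup.zpowers c) := hP.isNilpotent
    infer_instance
  refine Group.isSolvable_of_ker_le_range (Subgroup.zpowers c).subtype
    (QuotientGroup.mk' (Subgroup.zpowers c)) ?_
  rw [QuotientGroup.ker_mk', Subgroup.range_subtype]

open MulAction in
lemma IsSol.sum_count (hθ : IsSol θ) (h1 : θ 1 = 2) (hd : ∀ g, dd θ g = 1)
    {f : G → ℕ} (hf : HypCount f) : ∃ k : ℕ, ∑ᶠ g : G, θ g * (f g : ℂ) = 2 * k * Nat.card G := by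
  classical
  obtain ⟨X, _, _, hX, hfX⟩ := hf
  have : Fintype G := Fintype.ofFinite _
  have : Fintype X := Fintype.ofFinite _
  let F : X → ℂ := fun x => ∑ g : G, if g • x = x then θ g else 0
  have hstab : ∀ x : X, ∃ k : ℕ, F x = 2 * k * Nat.card (stabilizer G x) := by
    intro x
    obtain ⟨k, hk⟩ := even_of_hyp (Nat.card (stabilizer G x)) (stabilizer G x) rfl (hX x)
      (fun g => θ g) ((hθ.res _).heil (hyp_solvable (hX x))) h1 (fun g => hd g)
    refine ⟨k, ?_⟩
    rw [← hk, finsum_eq_sum_of_fintype]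
    change (∑ g : G, if g • x = x then θ g else 0) = _
    rw [← Finset.sum_filter]
    exact Finset.sum_subtype _ (by simp) θ
  choose k hk using hstab
  have hinv : ∀ (h : G) (x : X), F (h • x) = F x := by
    intro h x
    change ∑ g : G, (if g • h • x = h • x then θ g else 0) = ∑ g : G, if g • x = x then θ g else 0
    rw [← Equiv.sum_comp (MulAut.conj h).toEquiv
      (fun g => if g • h • x = h • x then θ g else 0)]
    refine Finset.sum_congr rfl fun g _ => ?_
    have e1 : (MulAut.conj h).toEquiv g = h * g * h⁻¹ := rfl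
    rw [e1, hθ.conj]
    have e2 : ((h * g * h⁻¹) • h • x = h • x) ↔ (g • x = x) := by
      rw [smul_smul, inv_mul_cancel_right, mul_smul]
      exact smul_left_cancel_iff h
    by_cases hgx : g • x = x
    · rw [if_pos hgx, if_pos (e2.mpr hgx)]
    · rw [if_neg hgx, if_neg (fun h => hgx (e2.mp h))]
  have hsum : ∑ᶠ g : G, θ g * (f g : ℂ) = ∑ x : X, F x := by
    rw [finsum_eq_sum_of_fintype, Finset.sum_comm]
    refine Finset.sum_congr rfl fun g _ => ?_
    rw [hfX, ← Finset.sum_filter, Finset.sum_const, nsmul_eq_mul, mul_comm,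
      Nat.card_eq_fintype_card, Fintype.card_subtype]
  let mk : X → Quotient (orbitRel G X) := Quotient.mk _
  refine ⟨∑ ω : Quotient (orbitRel G X), k ω.out, ?_⟩
  rw [hsum, ← Finset.sum_fiberwise_of_maps_to (s := Finset.univ) (t := Finset.univ)
    (g := mk) (fun _ _ => Finset.mem_univ _)]
  push_cast
  rw [Finset.mul_sum, Finset.sum_mul]
  refine Finset.sum_congr rfl fun ω _ => ?_
  have hconst : ∀ x ∈ Finset.univ.filter (fun x => mk x = ω), F x = F ω.out := by
    intro x hx
    have h2 := (Finset.mem_filter.mp hx).2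
    have h3 : mk x = mk ω.out := by
      rw [h2]; exact (Quotient.out_eq ω).symm
    have h4 := Quotient.exact h3
    obtain ⟨h, hh⟩ := orbitRel_apply.mp h4
    rw [← hh, hinv]
  rw [Finset.sum_congr rfl hconst, Finset.sum_const, nsmul_eq_mul, hk]
  have hcard : (Finset.univ.filter (fun x => mk x = ω)).card
      * Nat.card (stabilizer G ω.out) = Nat.card G := by
    have : Fintype (orbit G ω.out) := Fintype.ofFinite _
    have : Fintype (stabilizer G ω.out) := Fintype.ofFinite _
    have h5 := card_orbit_mul_card_stabilizer_eq_card_group G ω.out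
    rw [Nat.card_eq_fintype_card, Nat.card_eq_fintype_card, ← h5]
    congr 1
    rw [← Fintype.card_subtype]
    refine Fintype.card_congr (Equiv.subtypeEquivRight fun x => ?_)
    constructor
    · intro h2
      have h3 : mk x = mk ω.out := by
        rw [h2]; exact (Quotient.out_eq ω).symm
      exact orbitRel_apply.mp (Quotient.exact h3)
    · intro h2
      have h3 : mk x = mk ω.out := Quotient.sound (orbitRel_apply.mpr h2)
      rw [h3]; exact Quotient.out_eq ω
  rw [← hcard]
  push_cast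
  ring

/-- The parity theorem, for integral multiplicities. -/
theorem IsSol.parity (hθ : IsSol θ) (h1 : θ 1 = 2) (hd : ∀ g, dd θ g = 1) {n : ℤ}
    (hn : ∑ᶠ g : G, θ g = n * Nat.card G) : Even n := by
  classical
  have : Fintype G := Fintype.ofFinite _
  obtain ⟨F, hF, hodd⟩ := exists_all_odd (G := G)
  set N := Nat.card G with hN
  have hpow : HypCount (fun g => F g ^ (2 ^ N)) := by
    have := hF.pow (2 ^ N - 1)
    rwa [Nat.sub_add_cancel Nat.one_le_two_pow] at this
  obtain ⟨k, hk⟩ := hθ.sum_count h1 hd hpow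
  choose e he using fun g => odd_pow_two_pow (F g) (hodd g) N
  set T : ℂ := ∑ g : G, θ g * (e g : ℂ) with hT
  have hTint : IsIntegral ℤ T := by
    apply IsIntegral.sum
    intro g _
    apply IsIntegral.mul (hθ.isIntegral_two h1 g)
    have : ((e g : ℕ) : ℂ) = algebraMap ℤ ℂ (e g : ℤ) := by simp
    rw [this]
    exact isIntegral_algebraMap
  have hrel : (2 * k * N : ℂ) = n * N + 2 ^ (N + 1) * T := by
    rw [← hk, ← hn, finsum_eq_sum_of_fintype, finsum_eq_sum_of_fintype, hT, Finset.mul_sum,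
      ← Finset.sum_add_distrib]
    refine Finset.sum_congr rfl fun g _ => ?_
    rw [he]
    push_cast
    ring
  have hT2 : T = (((((2 * k : ℤ) - n) * N : ℤ) / (2 : ℚ) ^ (N + 1) : ℚ) : ℂ) := by
    have h2 : (2 : ℂ) ^ (N + 1) ≠ 0 := pow_ne_zero _ two_ne_zero
    push_cast
    rw [eq_div_iff h2]
    linear_combination -hrel
  rw [hT2] at hTint
  have h3 : IsIntegral ℤ ((((2 * k : ℤ) - n) * N : ℤ) / (2 : ℚ) ^ (N + 1) : ℚ) := by
    have h4 : ((((((2 * k : ℤ) - n) * N : ℤ) / (2 : ℚ) ^ (N + 1) : ℚ)) : ℂ)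
        = algebraMap ℚ ℂ ((((2 * k : ℤ) - n) * N : ℤ) / (2 : ℚ) ^ (N + 1) : ℚ) := rfl
    rw [h4] at hTint
    exact (isIntegral_algebraMap_iff (algebraMap ℚ ℂ).injective).mp hTint
  obtain ⟨t, ht⟩ := IsIntegrallyClosed.isIntegral_iff.mp h3
  have h5 : ((2 * k : ℤ) - n) * N = 2 ^ (N + 1) * t := by
    have h6 : (2 : ℚ) ^ (N + 1) ≠ 0 := by positivity
    rw [eq_div_iff h6] at ht
    have h7 : ((((2 * k : ℤ) - n) * N : ℤ) : ℚ) = ((2 ^ (N + 1) * t : ℤ) : ℚ) := by
      rw [← ht]; push_cast; simp only [eq_intCast]; ring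
    exact_mod_cast h7
  by_contra hne
  have hnodd : Odd n := Int.not_even_iff_odd.mp hne
  have h8 : IsCoprime ((2 : ℤ) ^ (N + 1)) ((2 * k : ℤ) - n) := by
    apply IsCoprime.pow_left
    rw [Int.isCoprime_iff_gcd_eq_one]
    have h9 : Odd ((2 * k : ℤ) - n) := (even_two_mul _).sub_odd hnodd
    rw [Int.gcd_eq_natAbs]
    have h10 : Odd ((2 * k : ℤ) - n).natAbs := Int.natAbs_odd.mpr h9
    exact Nat.coprime_two_left.mpr h10
  have h9 : (2 : ℤ) ^ (N + 1) ∣ (N : ℤ) := by
    apply h8.dvd_of_dvd_mul_left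
    exact ⟨t, h5⟩
  have h10 : 2 ^ (N + 1) ∣ N := by exact_mod_cast h9
  have h11 := Nat.le_of_dvd Nat.card_pos h10
  have h12 : N < 2 ^ N := Nat.lt_two_pow_self
  have h13 : 2 ^ N ≤ 2 ^ (N + 1) := Nat.pow_le_pow_right (by norm_num) (Nat.le_succ N)
  omega

/-- twisting by a linear character -/
lemma IsSol.twist (hθ : IsSol θ) (ρ : G →* ℂˣ) :
    IsSol (fun g => θ g * (((ρ g)⁻¹ : ℂˣ) : ℂ)) where
  conj g h := by
    rw [hθ.conj, map_mul, map_mul, map_inv, mul_right_comm, mul_inv_cancel, one_mul]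
  mult H hH χ := by
    obtain ⟨n, hn⟩ := hθ.mult H hH (χ * ρ.comp H.subtype)
    refine ⟨n, ?_⟩
    rw [← hn]
    refine finsum_congr fun h => ?_
    rw [MonoidHom.mul_apply, mul_inv, MonoidHom.comp_apply, Subgroup.coe_subtype]
    push_cast
    ring

end

end Pool.Agent.E8helper84.EH
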