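import Mathlib
import Pool.Agent.E8helper84.EH.Sol
import Pool.Agent.W446.AS.Virt
import Pool.Agent.R389.Ind
import Pool.Agent.R389.Compl
import Pool.Agent.Y788.VDet

/-!
# Tools: norms, linear characters, Frattini subgroups
-/

set_option autoImplicit false
set_option linter.unusedSectionVars false

namespace Pool.Agent.E8helper84.EH

open Pool.Agent.H302R2 Pool.Agent.W446.AS Pool.Agent.H541R3.ART Pool.Agent.R389

section

variable {G : Type} [Group G] [Finite G] {θ : G → ℂ}

lemma heil_star {G : Type*} [Group G] [Finite G] {θ : G → ℂ} (hθ : IsHeilbronn θ) (g : G) :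
    θ g⁻¹ = star (θ g) := by
  classical
  obtain ⟨ι, _, ψ, n, h⟩ := (hθ.comp (Subgroup.zpowers g).subtype).comm_decomp (zpowers_comm g)
  have h1 := h ⟨g, Subgroup.mem_zpowers g⟩
  have h2 := h ⟨g, Subgroup.mem_zpowers g⟩⁻¹
  have h3 : (Subgroup.zpowers g).subtype (⟨g, Subgroup.mem_zpowers g⟩⁻¹) = g⁻¹ := rfl
  have h4 : (Subgroup.zpowers g).subtype ⟨g, Subgroup.mem_zpowers g⟩ = g := rfl
  rw [h3] at h2
  rw [h4] at h1
  rw [h1, h2, star_sum]
  refine Finset.sum_congr rfl fun i _ => ?_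
  have h5 : ‖((ψ i ⟨g, Subgroup.mem_zpowers g⟩ : ℂˣ) : ℂ)‖ = 1 := by
    have h6 : ((ψ i ⟨g, Subgroup.mem_zpowers g⟩ : ℂˣ) : ℂ) ^ (Nat.card (Subgroup.zpowers g)) = 1 := by
      rw [← Units.val_pow_eq_pow_val, ← map_pow, pow_card_eq_one', map_one, Units.val_one]
    exact Complex.norm_eq_one_of_pow_eq_one h6 Nat.card_pos.ne'
  rw [map_inv, Units.val_inv_eq_inv_val, Complex.inv_eq_conj h5, star_mul', star_natCast]
  rfl

lemma IsSol.inv_star (hθ : IsSol θ) (g : G) : θ g⁻¹ = star (θ g) :=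
  heil_star (hθ.zp g) ⟨g, Subgroup.mem_zpowers g⟩

/-- integral multiplicities -/
lemma virt_int (hv : Virt θ) : ∃ n : (G → ℂ) → ℤ, ∀ χ ∈ Irr G, pr θ χ = n χ := by
  choose! n hn using fun χ (hχ : χ ∈ Irr G) => hv.pr_int hχ
  exact ⟨n, hn⟩

/-- the sum of the squares of the multiplicities -/
lemma sum_sq (hv : Virt θ) (hs : IsSol θ) {n : (G → ℂ) → ℤ} (hn : ∀ χ ∈ Irr G, pr θ χ = n χ)
    [Fintype G] :
    ((∑ χ ∈ irrF G, n χ ^ 2 : ℤ) : ℝ) * Nat.card G = ∑ g : G, ‖θ g‖ ^ 2 := by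
  classical
  have h1 : ∑ g : G, θ g * θ g⁻¹ = ((∑ g : G, ‖θ g‖ ^ 2 : ℝ) : ℂ) := by
    rw [Complex.ofReal_sum]
    refine Finset.sum_congr rfl fun g _ => ?_
    rw [hs.inv_star g]
    have := Complex.mul_conj (θ g)
    rw [Complex.normSq_eq_norm_sq] at this
    exact this
  have h2 : ∑ g : G, θ g * θ g⁻¹ = ((∑ χ ∈ irrF G, n χ ^ 2 : ℤ) : ℂ) * Nat.card G := by
    have h3 : ∀ g : G, θ g * θ g⁻¹ = ∑ χ ∈ irrF G, (n χ : ℂ) * (χ g * θ g⁻¹) := by
      intro g
      conv_lhs => rw [hv.expand g]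
      rw [Finset.sum_mul]
      refine Finset.sum_congr rfl fun χ hχ => ?_
      rw [hn χ (mem_irrF.mp hχ)]
      ring
    rw [Finset.sum_congr rfl (fun g _ => h3 g), Finset.sum_comm]
    push_cast
    rw [Finset.sum_mul]
    refine Finset.sum_congr rfl fun χ hχ => ?_
    rw [← Finset.mul_sum, sum_eq_pr, pr_comm, hn χ (mem_irrF.mp hχ)]
    ring
  have h4 := h1.symm.trans h2
  have h5 : ((∑ g : G, ‖θ g‖ ^ 2 : ℝ) : ℂ)
      = ((((∑ χ ∈ irrF G, n χ ^ 2 : ℤ) : ℝ) * Nat.card G : ℝ) : ℂ) := by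
    rw [h4]; push_cast; rfl
  exact (Complex.ofReal_injective h5).symm

/-- the multiplicity of the trivial character is larger than `-2` -/
lemma lower (hs : IsSol θ) (h1 : θ 1 = 2) {k : ℤ} (hk : ∑ᶠ g : G, θ g = k * Nat.card G) :
    -1 ≤ k := by
  classical
  have : Fintype G := Fintype.ofFinite G
  have h2 : ∀ g : G, -2 ≤ (θ g).re := by
    intro g
    have h3 := hs.norm_le g
    rw [h1] at h3
    have h4 := Complex.abs_re_le_norm (θ g)
    have h5 := neg_le_of_abs_le h4
    have h6 : (2 : ℂ).re = 2 := rfl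
    rw [h6] at h3
    linarith
  rw [finsum_eq_sum_of_fintype] at hk
  have h3 : ∑ g : G, ((θ g).re + 2) = (k + 2) * Nat.card G := by
    have h4 := congrArg Complex.re hk
    rw [Complex.re_sum] at h4
    rw [Finset.sum_add_distrib, h4, Finset.sum_const, Finset.card_univ, nsmul_eq_mul,
      ← Nat.card_eq_fintype_card]
    simp
    ring
  have h4 : (4 : ℝ) ≤ ∑ g : G, ((θ g).re + 2) := by
    have h5 := Finset.single_le_sum (f := fun g : G => (θ g).re + 2)
      (fun g _ => by have := h2 g; linarith) (Finset.mem_univ 1)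
    refine le_trans ?_ h5
    simp only [h1]
    have h6 : (2 : ℂ).re = 2 := rfl
    rw [h6]; norm_num
  rw [h3] at h4
  have h5 : (0 : ℝ) < Nat.card G := by exact_mod_cast Nat.card_pos
  by_contra hlt
  have h6 : (k : ℝ) + 2 ≤ 0 := by
    have : k ≤ -2 := by omega
    have : (k : ℝ) ≤ -2 := by exact_mod_cast this
    linarith
  nlinarith

/-- an irreducible representation with commuting operators has degree one -/
lemma abel_deg {n : ℕ} {ρ : Representation ℂ G (Fin n → ℂ)} (hρ : Irred ρ)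
    (h : ∀ a b, ρ a * ρ b = ρ b * ρ a) : ρ.character 1 = 1 := by
  have hsc : ∀ a, ∃ c : ℂ, ∀ v, ρ a v = c • v := by
    intro a
    refine hρ.scalar (ρ a) ?_
    intro g v
    rw [← Module.End.mul_apply, h, Module.End.mul_apply]
  have hn := hρ.1
  obtain ⟨v, hv⟩ := exists_ne (0 : Fin n → ℂ)
  rcases hρ.2 (Submodule.span ℂ {v}) (by
    intro g w hw
    obtain ⟨c, hc⟩ := hsc g
    rw [hc]
    exact Submodule.smul_mem _ _ hw) with h1 | h1
  · exact absurd (Submodule.span_singleton_eq_bot.mp h1) hv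
  · have h2 : Module.finrank ℂ (Fin n → ℂ) = 1 := by
      rw [← finrank_top ℂ (Fin n → ℂ), ← h1]
      exact finrank_span_singleton hv
    have h3 := ρ.char_one
    rw [h2] at h3
    rw [h3]
    norm_num

/-- `ρ g = 1` if the trace of `ρ g` is the degree -/
lemma rho_one {n : ℕ} {ρ : Representation ℂ G (Fin n → ℂ)} {g : G}
    (h : ρ.character g = ρ.character 1) : ρ g = 1 := by
  classical
  have hq : 0 < orderOf g := orderOf_pos g
  have hf : ρ g ^ orderOf g = 1 := by rw [← map_pow, pow_orderOf_eq_one, map_one]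
  obtain ⟨ι, _, b, μ, hb⟩ := Pool.Agent.Y788.V.exists_eigenbasis hq hf
  have h1 := Pool.Agent.Y788.V.diag_trace b hb 1
  rw [pow_one] at h1
  have hμ : ∀ i, ‖μ i‖ = 1 := by
    intro i
    have h2 := Pool.Agent.Y788.V.diag_pow b hb (orderOf g) i
    rw [hf, Module.End.one_apply] at h2
    have h3 : (μ i ^ orderOf g - 1) • b i = 0 := by rw [sub_smul, one_smul, ← h2, sub_self]
    rcases smul_eq_zero.mp h3 with h4 | h4
    · exact Complex.norm_eq_one_of_pow_eq_one (sub_eq_zero.mp h4) hq.ne'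
    · exact absurd h4 (b.ne_zero i)
  have h2 : ρ.character 1 = (Fintype.card ι : ℂ) := by
    rw [ρ.char_one, Module.finrank_eq_card_basis b]
  have h3 : ∑ i, μ i = (Fintype.card ι : ℂ) := by
    rw [← h2, ← h]
    have : ∀ i, μ i = μ i ^ 1 := fun i => (pow_one _).symm
    rw [Finset.sum_congr rfl (fun i _ => this i), ← h1]
    rfl
  have h4 : ∀ i ∈ (Finset.univ : Finset ι), 1 - (μ i).re = 0 := by
    apply (Finset.sum_eq_zero_iff_of_nonneg ?_).mp
    · have := congrArg Complex.re h3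
      rw [Complex.re_sum] at this
      rw [Finset.sum_sub_distrib, this]
      simp
    · intro i _
      have := (Complex.re_le_norm (μ i)).trans (hμ i).le
      linarith
  have h5 : ∀ i, μ i = 1 := by
    intro i
    have h6 : (μ i).re = 1 := by have := h4 i (Finset.mem_univ i); linarith
    have h8 := Complex.sq_norm_sub_sq_re (μ i)
    rw [hμ, h6] at h8
    apply Complex.ext
    · simpa using h6
    · have : (μ i).im ^ 2 = 0 := by linarith
      simpa using this
  apply b.ext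
  intro i
  rw [hb, h5, one_smul, Module.End.one_apply]

/-- the restriction of an irreducible character to the kernel of a linear character -/
lemma irr_dich {χ : G → ℂ} (hχ : χ ∈ Irr G) (D : G →* ℂˣ) :
    (∃ ψ : G →* ℂˣ, (∀ g, χ g = ((ψ g : ℂˣ) : ℂ)) ∧ ∀ g, D g = 1 → ψ g = 1) ∨
      ∑ᶠ x : D.ker, χ x = 0 := by
  classical
  have : Fintype D.ker := Fintype.ofFinite _
  obtain ⟨n, ρ, hρ, rfl⟩ := exists_rep hχ
  rcases hρ.normal_dich D.ker with h | h
  · left
    have hc : ∀ a b, ρ a * ρ b = ρ b * ρ a := by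
      intro a b
      have h1 : (a * b) * (b * a)⁻¹ ∈ D.ker := by
        rw [MonoidHom.mem_ker, map_mul, map_inv, map_mul, map_mul, mul_comm (D b),
          mul_inv_cancel]
      have h2 := h _ h1
      have h3 : a * b = ((a * b) * (b * a)⁻¹) * (b * a) := by group
      rw [← map_mul, h3, map_mul, h2, one_mul, map_mul]
    obtain ⟨ψ, hψ⟩ := (irr_heilbronn hχ).deg_one (abel_deg hρ hc)
    refine ⟨ψ, hψ, fun g hg => ?_⟩
    apply Units.ext
    rw [← hψ]
    have h4 := h g hg
    change LinearMap.trace ℂ _ (ρ g) = _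
    rw [h4, ← map_one ρ]
    exact abel_deg hρ hc
  · right
    rw [finsum_eq_sum_of_fintype]
    have := h 1
    simpa using this

end

section frattini

variable {G : Type} [Group G] [Finite G]

/-- A Frattini argument: elements of prime power order of the kernel of `μ` lie in solvable
subgroups not contained in the kernel. -/
lemma exists_solv {μ : G →* ℂˣ} (hμ : μ ≠ 1) {g : G} (hg : μ g = 1) {p j : ℕ} (hp : p.Prime)
    (ho : orderOf g = p ^ j) : ∃ H : Subgroup G, Group.IsSolvable H ∧ g ∈ H ∧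
      ∃ x ∈ H, μ x ≠ 1 := by
  classical
  have : Fact p.Prime := ⟨hp⟩
  let M := μ.ker
  have hgM : g ∈ M := hg
  have hP : IsPGroup p (Subgroup.zpowers (⟨g, hgM⟩ : M)) := by
    refine IsPGroup.of_card (n := j) ?_
    rw [Nat.card_zpowers, Subgroup.orderOf_mk, ho]
  obtain ⟨Q, hQ⟩ := hP.exists_le_sylow
  set Q' : Subgroup G := (Q : Subgroup M).map M.subtype with hQ'
  have hgQ : g ∈ Q' := ⟨⟨g, hgM⟩, hQ (Subgroup.mem_zpowers _), rfl⟩
  have hQM : Q' ≤ M := by
    rintro _ ⟨y, -, rfl⟩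
    exact y.2
  have hfr := Sylow.normalizer_sup_eq_top Q
  have hx : ∃ x ∈ Subgroup.normalizer (Q' : Set G), x ∉ M := by
    by_contra hcon
    push Not at hcon
    have h1 : Subgroup.normalizer (Q' : Set G) ≤ M := hcon
    rw [sup_eq_right.mpr h1] at hfr
    apply hμ
    ext y
    have h2 : y ∈ M := by rw [hfr]; exact Subgroup.mem_top y
    have h3 : μ y = 1 := h2
    rw [h3]; rfl
  obtain ⟨x, hxN, hxM⟩ := hx
  let W := Subgroup.normalizer (Q' : Set G)
  let Q2 : Subgroup W := Q'.subgroupOf W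
  have hQ2n : Q2.Normal := Subgroup.normal_in_normalizer
  let π : W →* W ⧸ Q2 := QuotientGroup.mk' Q2
  let xw : W := ⟨x, hxN⟩
  let H : Subgroup W := (Subgroup.zpowers (π xw)).comap π
  have hQW : Q' ≤ W := Subgroup.le_normalizer
  have hQ2H : Q2 ≤ H := by
    intro y hy
    rw [Subgroup.mem_comap]
    have : π y = 1 := (QuotientGroup.eq_one_iff y).mpr hy
    rw [this]; exact one_mem _
  have hQ2s : Group.IsSolvable Q2 := by
    have h1 : IsPGroup p Q' := Q.isPGroup'.map _
    have h2 : IsPGroup p Q2 := h1.of_equiv (Subgroup.subgroupOfEquivOfLe hQW).symm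
    have : Group.IsNilpotent Q2 := h2.isNilpotent
    infer_instance
  have hCs : Group.IsSolvable (Subgroup.zpowers (π xw)) :=
    Group.isSolvable_of_comm (zpowers_comm (π xw))
  have hHs : Group.IsSolvable H := by
    refine Group.isSolvable_of_ker_le_range (Subgroup.inclusion hQ2H)
      (π.subgroupComap (Subgroup.zpowers (π xw))) ?_
    intro y hy
    have h1 : π (y : W) = 1 := congrArg Subtype.val (MonoidHom.mem_ker.mp hy)
    have h2 : (y : W) ∈ Q2 := (QuotientGroup.eq_one_iff (y : W)).mp h1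
    exact ⟨⟨y, h2⟩, Subtype.ext rfl⟩
  refine ⟨H.map W.subtype, ?_, ?_, ?_⟩
  · exact Group.isSolvable_of_surjective (f := (H.equivMapOfInjective W.subtype
        W.subtype_injective).toMonoidHom) (MulEquiv.surjective _)
  · exact ⟨⟨g, hQW hgQ⟩, hQ2H hgQ, rfl⟩
  · exact ⟨x, ⟨xw, Subgroup.mem_zpowers _, rfl⟩, hxM⟩

/-- A Heilbronn function takes the value `θ 1` at `g` if it does so at all powers of `g` of prime
power order. -/
lemma of_ppow {θ : G → ℂ} (hθ : IsHeilbronn θ) (g : G)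
    (h : ∀ k p j : ℕ, p.Prime → orderOf (g ^ k) = p ^ j → θ (g ^ k) = θ 1) : θ g = θ 1 := by
  classical
  let A : AddSubgroup ℤ :=
    { carrier := {k | θ (g ^ k) = θ 1}
      zero_mem' := by simp
      add_mem' := by
        intro a b ha hb
        rw [Set.mem_ofPred_eq] at ha hb ⊢
        rw [zpow_add, hθ.mul_of_comm ((Commute.refl g).zpow_zpow a b).eq hb, ha]
      neg_mem' := by
        intro a ha
        rw [Set.mem_ofPred_eq] at ha ⊢
        rw [zpow_neg, heil_star hθ, ha]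
        obtain ⟨r, hr⟩ := hθ.exists_deg
        rw [hr]; simp }
  have hA : ∀ p : ℕ, p.Prime → ∃ m : ℕ, (m : ℤ) ∈ A ∧ ¬ p ∣ m := by
    intro p hp
    have hn : orderOf g ≠ 0 := (orderOf_pos g).ne'
    refine ⟨ordCompl[p] (orderOf g), ?_, Nat.not_dvd_ordCompl hp hn⟩
    change θ (g ^ ((ordCompl[p] (orderOf g) : ℕ) : ℤ)) = θ 1
    rw [zpow_natCast]
    refine h _ p ((orderOf g).factorization p) hp ?_
    have h1 := Nat.ordProj_mul_ordCompl_eq_self (orderOf g) p
    have hc : 0 < ordCompl[p] (orderOf g) := Nat.ordCompl_pos p hn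
    rw [orderOf_pow_of_dvd hc.ne' (Nat.ordCompl_dvd _ _)]
    exact Nat.div_eq_of_eq_mul_left hc h1.symm
  obtain ⟨n, hn⟩ := Int.subgroup_cyclic A
  have hn1 : n.natAbs = 1 := by
    by_contra hne
    obtain ⟨p, hp', hpn⟩ := Nat.exists_prime_and_dvd hne
    obtain ⟨m, hm, hpm⟩ := hA p hp'
    apply hpm
    rw [hn, AddSubgroup.mem_closure_singleton] at hm
    obtain ⟨k, hk⟩ := hm
    have h1 : (p : ℤ) ∣ n := Int.natCast_dvd.mpr hpn
    have h2 : n ∣ (m : ℤ) := ⟨k, by rw [← hk, smul_eq_mul, mul_comm]⟩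
    exact Int.natCast_dvd_natCast.mp (h1.trans h2)
  have h1 : (1 : ℤ) ∈ A := by
    rw [hn, AddSubgroup.mem_closure_singleton]
    rcases Int.natAbs_eq n with h | h
    · exact ⟨1, by rw [h, hn1]; simp⟩
    · exact ⟨-1, by rw [h, hn1]; simp⟩
  have h2 : θ (g ^ (1 : ℤ)) = θ 1 := h1
  simpa using h2

end frattini

end Pool.Agent.E8helper84.EH
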