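import Mathlib
import Pool.Agent.E8helper84.EH.Tools
import Pool.Agent.R389.Dec

/-!
# Virtual characters of degree at most two, nonnegative on the solvable subgroups
-/

set_option autoImplicit false
set_option linter.unusedSectionVars false

namespace Pool.Agent.E8helper84.EH

open Pool.Agent.H302R2 Pool.Agent.W446.AS Pool.Agent.H541R3.ART Pool.Agent.R389

section

variable {G : Type} [Group G] [Finite G] {θ : G → ℂ}

lemma one_irr : (fun _ : G => (1 : ℂ)) ∈ Irr G := by
  have := lin_irr (1 : G →* ℂˣ)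
  simpa using this

/-- duality: `θ(g⁻¹) = θ(g) D(g)⁻¹` -/
lemma IsSol.inv_eq (hs : IsSol θ) (h1 : θ 1 = 2) {D : G →* ℂˣ}
    (hD : ∀ g, ((D g : ℂˣ) : ℂ) = dd θ g) (g : G) : θ g⁻¹ = θ g * (((D g)⁻¹ : ℂˣ) : ℂ) := by
  have h := (hs.zp g).inv_eq (by simpa using h1) (D := D.comp (Subgroup.zpowers g).subtype)
    (fun x => hD x) ⟨g, Subgroup.mem_zpowers g⟩
  exact h

lemma core (hv : Virt θ) (hs : IsSol θ) (h1 : θ 1 = 2)
    (ih : ∀ H : Subgroup G, H ≠ ⊤ → IsHeilbronn (fun h : H => θ h)) {k : ℤ}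
    (hk : ∑ᶠ g : G, θ g = k * Nat.card G) : 0 ≤ k := by
  classical
  have : Fintype G := Fintype.ofFinite G
  by_contra hneg
  have hk1 : k = -1 := by
    have := lower hs h1 hk
    omega
  subst hk1
  obtain ⟨D, hD⟩ := hs.exists_det h1
  by_cases hD1 : D = 1
  · have h2 := hs.parity h1 (fun g => by rw [← hD, hD1]; simp) hk
    exact absurd h2 (by decide)
  have hN : D.ker ≠ ⊤ := by
    intro h
    apply hD1
    ext g
    have h2 : g ∈ D.ker := by rw [h]; exact Subgroup.mem_top g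
    have h3 : D g = 1 := h2
    rw [h3]; rfl
  have : Fintype D.ker := Fintype.ofFinite _
  obtain ⟨n, hn⟩ := virt_int hv
  set e : G → ℂ := fun _ => 1 with he
  set δ : G → ℂ := fun g => ((D g : ℂˣ) : ℂ) with hδ
  have heI : e ∈ Irr G := one_irr
  have hδI : δ ∈ Irr G := lin_irr D
  have hne : e ≠ δ := by
    intro h
    apply hD1
    ext g
    have := congrFun h g
    simp only [he, hδ] at this
    rw [← this]; simp
  have hG : (Nat.card G : ℂ) ≠ 0 := card_ne
  have hne1 : n e = -1 := by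
    have h2 := hn e heI
    rw [pr_eq] at h2
    simp only [he, mul_one] at h2
    rw [← finsum_eq_sum_of_fintype, hk, mul_comm, mul_assoc, mul_inv_cancel₀ hG, mul_one] at h2
    exact_mod_cast h2.symm
  have hnδ : n δ = -1 := by
    have h2 := hn δ hδI
    have h3 : ∑ g : G, θ g * δ g⁻¹ = ∑ g : G, θ g := by
      rw [← Equiv.sum_comp (Equiv.inv G) θ]
      refine Finset.sum_congr rfl fun g _ => ?_
      rw [Equiv.inv_apply, hs.inv_eq h1 hD g]
      simp only [hδ, map_inv]
    rw [pr_eq, h3, ← finsum_eq_sum_of_fintype, hk, mul_comm, mul_assoc, mul_inv_cancel₀ hG,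
      mul_one] at h2
    exact_mod_cast h2.symm
  -- the linear characters trivial on the kernel of `D`
  let P : (G → ℂ) → Prop := fun χ =>
    ∃ ψ : G →* ℂˣ, (∀ g, χ g = ((ψ g : ℂˣ) : ℂ)) ∧ ∀ g, D g = 1 → ψ g = 1
  set L := (irrF G).filter P with hL
  have hPe : P e := ⟨1, fun g => by simp [he], fun g _ => rfl⟩
  have hPδ : P δ := ⟨D, fun g => rfl, fun g h => h⟩
  obtain ⟨m, hm⟩ := (ih D.ker hN).mult_hom (MonoidHom.id D.ker) 1
  simp only [MonoidHom.id_apply, MonoidHom.one_apply, inv_one, Units.val_one, mul_one] at hm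
  have hsumL : ∑ χ ∈ L, n χ = (m : ℤ) := by
    have h2 : ∑ x : D.ker, θ x = ((∑ χ ∈ L, n χ : ℤ) : ℂ) * Nat.card D.ker := by
      have h3 : ∀ x : D.ker, θ x = ∑ χ ∈ irrF G, (n χ : ℂ) * χ x := by
        intro x
        rw [hv.expand (x : G)]
        exact Finset.sum_congr rfl fun χ hχ => by rw [hn χ (mem_irrF.mp hχ)]
      rw [Finset.sum_congr rfl (fun x _ => h3 x), Finset.sum_comm, hL, Finset.sum_filter]
      push_cast
      rw [Finset.sum_mul]
      refine Finset.sum_congr rfl fun χ hχ => ?_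
      rw [← Finset.mul_sum]
      split_ifs with hPχ
      · obtain ⟨ψ, hψ, hψ1⟩ := hPχ
        have h4 : ∀ x : D.ker, χ x = 1 := by
          intro x
          rw [hψ, hψ1 x x.2]; rfl
        rw [Finset.sum_congr rfl (fun x _ => h4 x), Finset.sum_const, Finset.card_univ,
          nsmul_eq_mul, mul_one, ← Nat.card_eq_fintype_card]
      · rcases irr_dich (mem_irrF.mp hχ) D with h4 | h4
        · exact absurd h4 hPχ
        · rw [finsum_eq_sum_of_fintype] at h4
          rw [h4]; simp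
    rw [hm] at h2
    have h3 : (Nat.card D.ker : ℂ) ≠ 0 := card_ne
    have h4 := mul_right_cancel₀ h3 h2
    exact_mod_cast h4.symm
  -- the norm
  have hsq : ∑ χ ∈ irrF G, n χ ^ 2 ≤ 4 := by
    have h2 := sum_sq hv hs hn
    have h3 : ∑ g : G, ‖θ g‖ ^ 2 ≤ 4 * Nat.card G := by
      have h4 : ∀ g ∈ (Finset.univ : Finset G), ‖θ g‖ ^ 2 ≤ 4 := by
        intro g _
        have h5 := hs.norm_le g
        rw [h1] at h5
        have h6 : (2 : ℂ).re = 2 := rfl
        rw [h6] at h5
        nlinarith [norm_nonneg (θ g)]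
      refine (Finset.sum_le_sum h4).trans (le_of_eq ?_)
      rw [Finset.sum_const, Finset.card_univ, nsmul_eq_mul, ← Nat.card_eq_fintype_card]
      ring
    rw [← h2] at h3
    have h5 : (0 : ℝ) < Nat.card G := by exact_mod_cast Nat.card_pos
    have h6 := le_of_mul_le_mul_right h3 h5
    exact_mod_cast h6
  -- remove `1` and `D`
  set I := (irrF G).erase e |>.erase δ with hI
  set L' := (L.erase e).erase δ with hL'
  have heL : e ∈ L := Finset.mem_filter.mpr ⟨mem_irrF.mpr heI, hPe⟩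
  have hδL : δ ∈ L.erase e :=
    Finset.mem_erase.mpr ⟨hne.symm, Finset.mem_filter.mpr ⟨mem_irrF.mpr hδI, hPδ⟩⟩
  have hδI' : δ ∈ (irrF G).erase e := Finset.mem_erase.mpr ⟨hne.symm, mem_irrF.mpr hδI⟩
  have h2 : ∑ χ ∈ L', n χ = m + 2 := by
    have h3 := Finset.add_sum_erase L n heL
    have h4 := Finset.add_sum_erase (L.erase e) n hδL
    rw [← hL'] at h4
    rw [hsumL] at h3
    rw [hne1] at h3
    rw [hnδ] at h4
    linarith
  have h3 : ∑ χ ∈ I, n χ ^ 2 ≤ 2 := by
    have h4 := Finset.add_sum_erase (irrF G) (fun χ => n χ ^ 2) (mem_irrF.mpr heI)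
    have h5 := Finset.add_sum_erase ((irrF G).erase e) (fun χ => n χ ^ 2) hδI'
    rw [← hI] at h5
    simp only [hne1] at h4
    simp only [hnδ] at h5
    linarith
  have hsub : L' ⊆ I := by
    intro χ hχ
    rw [hL', Finset.mem_erase, Finset.mem_erase, hL, Finset.mem_filter] at hχ
    rw [hI, Finset.mem_erase, Finset.mem_erase]
    exact ⟨hχ.1, hχ.2.1, hχ.2.2.1⟩
  have h4 : ∑ χ ∈ L', n χ ≤ ∑ χ ∈ L', n χ ^ 2 := by
    refine Finset.sum_le_sum fun χ _ => ?_
    have := Int.le_self_sq (n χ)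
    exact this
  have h5 : ∑ χ ∈ L', n χ ^ 2 + ∑ χ ∈ I \ L', n χ ^ 2 = ∑ χ ∈ I, n χ ^ 2 := by
    rw [add_comm, Finset.sum_sdiff hsub]
  have h6 : (0 : ℤ) ≤ ∑ χ ∈ I \ L', n χ ^ 2 := Finset.sum_nonneg fun χ _ => sq_nonneg _
  have hm0 : (m : ℤ) = 0 := by
    have : (0 : ℤ) ≤ m := Int.natCast_nonneg m
    linarith
  have h7 : ∑ χ ∈ I \ L', n χ ^ 2 = 0 := by linarith
  have h8 : ∀ χ ∈ irrF G, χ ∉ L → n χ = 0 := by
    intro χ hχ hχL
    have h9 : χ ∈ I \ L' := by
      rw [Finset.mem_sdiff, hI, Finset.mem_erase, Finset.mem_erase, hL', Finset.mem_erase,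
        Finset.mem_erase]
      refine ⟨⟨?_, ?_, hχ⟩, ?_⟩
      · rintro rfl
        exact hχL (Finset.mem_of_mem_erase hδL)
      · rintro rfl
        exact hχL heL
      · rintro ⟨-, -, h⟩
        exact hχL h
    have h10 := (Finset.sum_eq_zero_iff_of_nonneg (fun χ _ => sq_nonneg (n χ))).mp h7 χ h9
    exact pow_eq_zero_iff (two_ne_zero) |>.mp h10
  -- the degree
  have h9 : θ 1 = ((∑ χ ∈ L, n χ : ℤ) : ℂ) := by
    rw [hv.expand 1, hL, Finset.sum_filter]
    push_cast
    refine Finset.sum_congr rfl fun χ hχ => ?_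
    split_ifs with hPχ
    · obtain ⟨ψ, hψ, -⟩ := hPχ
      rw [hn χ (mem_irrF.mp hχ), hψ, map_one]
      simp
    · rw [hn χ (mem_irrF.mp hχ), h8 χ hχ (fun h => hPχ (Finset.mem_filter.mp h).2)]
      simp
  rw [hsumL, hm0, h1] at h9
  norm_num at h9

end

lemma virt_twist {G : Type} [Group G] [Finite G] {θ : G → ℂ} (hv : Virt θ) (ρ : G →* ℂˣ) :
    Virt (fun g => θ g * (((ρ g)⁻¹ : ℂˣ) : ℂ)) := by
  have h1 : AddSubgroup.closure (Irr G) ≤ (AddSubgroup.closure (Irr G)).comap (twHom ρ⁻¹) := by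
    rw [AddSubgroup.closure_le]
    intro χ hχ
    exact AddSubgroup.subset_closure (irr_twist hχ ρ⁻¹)
  exact h1 hv

/-- **Virtual characters of degree two.** If all multiplicities of linear characters of solvable
subgroups are nonnegative, then all multiplicities of linear characters of subgroups are
nonnegative. -/
theorem heilbronn_two : ∀ (N : ℕ) (G : Type) [Group G] [Finite G], Nat.card G = N →
    ∀ θ : G → ℂ, Virt θ → IsSol θ → θ 1 = 2 → IsHeilbronn θ := by
  intro N
  induction N using Nat.strong_induction_on with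
  | _ N ih =>
    intro G _ _ hGN θ hv hs h1
    classical
    have hsub : ∀ H : Subgroup G, H ≠ ⊤ → IsHeilbronn (fun h : H => θ h) := by
      intro H hH
      have hlt : Nat.card H < N := by
        rw [← hGN]
        have := Subgroup.card_le_card_group H
        rcases this.lt_or_eq with h | h
        · exact h
        · exact absurd (Subgroup.eq_top_of_card_eq H h) hH
      exact ih _ hlt H rfl (fun h => θ h) (hv.comp H.subtype) (hs.res H) (by simpa using h1)
    refine ⟨hs.conj, fun H χ => ?_⟩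
    by_cases hH : H = ⊤
    swap
    · obtain ⟨n, hn⟩ := (hsub H hH).mult ⊤ (χ.comp (⊤ : Subgroup H).subtype)
      refine ⟨n, ?_⟩
      rw [← finsum_comp_equiv (Subgroup.topEquiv (G := H)).toEquiv]
      rw [Nat.card_congr (Subgroup.topEquiv (G := H)).toEquiv] at hn
      exact hn
    subst hH
    let ρ : G →* ℂˣ := χ.comp (Subgroup.topEquiv (G := G)).symm.toMonoidHom
    obtain ⟨k, hk⟩ := hv.pr_int (lin_irr ρ)
    have : Fintype G := Fintype.ofFinite G
    have hG : (Nat.card G : ℂ) ≠ 0 := card_ne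
    have hk2 : ∑ᶠ g : G, θ g * (((ρ g)⁻¹ : ℂˣ) : ℂ) = k * Nat.card G := by
      rw [← hk, finsum_eq_sum_of_fintype, ← sum_eq_pr]
      refine Finset.sum_congr rfl fun g _ => ?_
      rw [map_inv]
    have hk0 : 0 ≤ k := by
      refine core (virt_twist hv ρ) (hs.twist ρ) (by simpa using h1) ?_ hk2
      intro H hH
      exact (hsub H hH).twist (ρ.comp H.subtype)
    obtain ⟨n, rfl⟩ := Int.eq_ofNat_of_zero_le hk0
    refine ⟨n, ?_⟩
    rw [Nat.card_congr (Subgroup.topEquiv (G := G)).toEquiv]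
    rw [← finsum_comp_equiv (Subgroup.topEquiv (G := G)).symm.toEquiv]
    rw [Int.cast_natCast] at hk2
    exact hk2

/-- **Virtual characters of degree at most two.** -/
theorem heilbronn_le_two {G : Type} [Group G] [Finite G] {θ : G → ℂ} (hv : Virt θ) (hs : IsSol θ)
    {r : ℕ} (hr : r ≤ 2) (h1 : θ 1 = r) : IsHeilbronn θ := by
  interval_cases r
  · have h0 : ∀ g, θ g = 0 := by
      intro g
      have := hs.norm_le g
      rw [h1] at this
      simpa using this
    refine ⟨hs.conj, fun H χ => ⟨0, ?_⟩⟩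
    simp [h0]
  · obtain ⟨ψ, hψ⟩ := hs.deg_one (by simpa using h1)
    have h2 : θ = fun g => ((ψ g : ℂˣ) : ℂ) := funext hψ
    rw [h2]
    exact irr_heilbronn (lin_irr ψ)
  · exact heilbronn_two _ G rfl θ hv hs (by simpa using h1)

end Pool.Agent.E8helper84.EH
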