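import Mathlib
import Pool.Agent.E8helper84.EH.Core
import Pool.Agent.R389.Sol

/-!
# Orders of a multiplicative family of functions indexed by the class functions of a finite group
-/

set_option autoImplicit false
set_option linter.unusedSectionVars false

namespace Pool.Agent.E8helper84.EH

open Pool.Agent.H302R2 Pool.Agent.W446.AS Pool.Agent.H541R3.ART Pool.Agent.R389 Filter Topology

/-- `Λ` is meromorphic on `ℂ` and equal to `f` on the half plane `Re s > 3/2` -/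
def Cont (f Λ : ℂ → ℂ) : Prop :=
  (∀ s, MeromorphicAt Λ s) ∧ ∀ s : ℂ, 3 / 2 < s.re → Λ s = f s

/-- a multiplicative family of functions without zeros on the half plane `Re s > 3/2` -/
structure Fam (G : Type) (L : (G → ℂ) → ℂ → ℂ) : Prop where
  add : ∀ (a b : G → ℂ) (s : ℂ), 3 / 2 < s.re → L (a + b) s = L a s * L b s
  ne : ∀ (a : G → ℂ) (s : ℂ), 3 / 2 < s.re → L a s ≠ 0

lemma near_two : ∀ᶠ s : ℂ in 𝓝[≠] 2, 3 / 2 < s.re := by
  have h1 : ∀ᶠ s : ℂ in 𝓝 2, 3 / 2 < s.re := by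
    have h2 : IsOpen {s : ℂ | 3 / 2 < s.re} := isOpen_lt continuous_const Complex.continuous_re
    exact h2.mem_nhds (by norm_num)
  exact h1.filter_mono nhdsWithin_le_nhds

lemma Cont.ne_top {f Λ : ℂ → ℂ} (h : Cont f Λ) (hf : ∀ s : ℂ, 3 / 2 < s.re → f s ≠ 0) (s₀ : ℂ) :
    meromorphicOrderAt Λ s₀ ≠ ⊤ := by
  have hm : Meromorphic Λ := h.1
  refine (hm.exists_meromorphicOrderAt_ne_top_iff_forall.mp ⟨2, ?_⟩) s₀
  rw [meromorphicOrderAt_ne_top_iff_eventually_ne_zero (h.1 2)]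
  filter_upwards [near_two] with s hs
  rw [h.2 s hs]
  exact hf s hs

lemma Cont.unique {f Λ Λ' : ℂ → ℂ} (h : Cont f Λ) (h' : Cont f Λ') (s₀ : ℂ) :
    meromorphicOrderAt Λ s₀ = meromorphicOrderAt Λ' s₀ := by
  have hm : Meromorphic (Λ - Λ') := fun s => (h.1 s).sub (h'.1 s)
  have h2 : meromorphicOrderAt (Λ - Λ') s₀ = ⊤ := by
    by_contra hne
    have h3 := (hm.exists_meromorphicOrderAt_ne_top_iff_forall.mp ⟨s₀, hne⟩) 2
    apply h3
    rw [meromorphicOrderAt_eq_top_iff]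
    filter_upwards [near_two] with s hs
    rw [Pi.sub_apply, h.2 s hs, h'.2 s hs, sub_self]
  rw [meromorphicOrderAt_eq_top_iff] at h2
  refine meromorphicOrderAt_congr ?_
  filter_upwards [h2] with s hs
  exact sub_eq_zero.mp hs

section

variable {G : Type} {L : (G → ℂ) → ℂ → ℂ}

lemma Fam.zero (F : Fam G L) (s : ℂ) (hs : 3 / 2 < s.re) : L 0 s = 1 := by
  have h := F.add 0 0 s hs
  rw [add_zero] at h
  have h2 := F.ne 0 s hs
  field_simp at h
  exact h.symm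

lemma Fam.neg (F : Fam G L) (a : G → ℂ) (s : ℂ) (hs : 3 / 2 < s.re) : L (-a) s = (L a s)⁻¹ := by
  have h := F.add (-a) a s hs
  rw [neg_add_cancel, F.zero s hs] at h
  exact eq_inv_of_mul_eq_one_left h.symm

lemma Cont.zero (F : Fam G L) : Cont (L 0) 1 :=
  ⟨fun _ => (analyticAt_const (v := (1 : ℂ))).meromorphicAt, fun s hs => (F.zero s hs).symm⟩

lemma Cont.add (F : Fam G L) {a b : G → ℂ} {Λ Λ' : ℂ → ℂ} (h : Cont (L a) Λ) (h' : Cont (L b) Λ') :
    Cont (L (a + b)) (Λ * Λ') :=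
  ⟨fun s => (h.1 s).mul (h'.1 s), fun s hs => by
    rw [Pi.mul_apply, h.2 s hs, h'.2 s hs, F.add a b s hs]⟩

lemma Cont.neg (F : Fam G L) {a : G → ℂ} {Λ : ℂ → ℂ} (h : Cont (L a) Λ) :
    Cont (L (-a)) (Λ⁻¹) :=
  ⟨fun s => (h.1 s).inv, fun s hs => by
    rw [Pi.inv_apply, h.2 s hs, F.neg a s hs]⟩

open Classical in
/-- the order at `s₀` of the continuation -/
noncomputable def ordd (L : (G → ℂ) → ℂ → ℂ) (s₀ : ℂ) (a : G → ℂ) : ℤ :=
  if h : ∃ Λ, Cont (L a) Λ then (meromorphicOrderAt h.choose s₀).untop₀ else 0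

lemma ordd_eq (F : Fam G L) {a : G → ℂ} {Λ : ℂ → ℂ} (h : Cont (L a) Λ) (s₀ : ℂ) :
    meromorphicOrderAt Λ s₀ = (ordd L s₀ a : WithTop ℤ) := by
  classical
  have hex : ∃ Λ, Cont (L a) Λ := ⟨Λ, h⟩
  rw [ordd, dif_pos hex, h.unique hex.choose_spec s₀]
  exact (WithTop.coe_untop₀_of_ne_top (hex.choose_spec.ne_top (F.ne a) s₀)).symm

lemma ordd_zero (F : Fam G L) (s₀ : ℂ) : ordd L s₀ 0 = 0 := by
  have h := ordd_eq F (Cont.zero F) s₀
  have h2 : meromorphicOrderAt (1 : ℂ → ℂ) s₀ = 0 := by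
    have h3 : AnalyticAt ℂ (1 : ℂ → ℂ) s₀ := analyticAt_const
    rw [h3.meromorphicOrderAt_eq, h3.analyticOrderAt_eq_zero.mpr (by simp)]
    rfl
  rw [h2] at h
  exact_mod_cast h.symm

lemma ordd_add (F : Fam G L) {a b : G → ℂ} (ha : ∃ Λ, Cont (L a) Λ) (hb : ∃ Λ, Cont (L b) Λ)
    (s₀ : ℂ) : ordd L s₀ (a + b) = ordd L s₀ a + ordd L s₀ b := by
  obtain ⟨Λ, h⟩ := ha
  obtain ⟨Λ', h'⟩ := hb
  have h2 := ordd_eq F (Cont.add F h h') s₀
  rw [meromorphicOrderAt_mul (h.1 s₀) (h'.1 s₀), ordd_eq F h, ordd_eq F h'] at h2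
  exact_mod_cast h2.symm

lemma ordd_neg (F : Fam G L) {a : G → ℂ} (ha : ∃ Λ, Cont (L a) Λ) (s₀ : ℂ) :
    ordd L s₀ (-a) = - ordd L s₀ a := by
  obtain ⟨Λ, h⟩ := ha
  have h2 := ordd_eq F (Cont.neg F h) s₀
  rw [meromorphicOrderAt_inv, ordd_eq F h] at h2
  exact_mod_cast h2.symm

end

section

variable {G : Type} [Group G] [Finite G] {L : (G → ℂ) → ℂ → ℂ}

/-- the functions of the linear characters of the solvable subgroups are entire -/
def Entire (G : Type) [Group G] (L : (G → ℂ) → ℂ → ℂ) : Prop :=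
  ∀ H : Subgroup G, Group.IsSolvable H → ∀ ψ : H →* ℂˣ, ∃ Λ : ℂ → ℂ, Differentiable ℂ Λ ∧
    ∀ s : ℂ, 3 / 2 < s.re → Λ s = L (ind H (fun h => ((ψ h : ℂˣ) : ℂ))) s

lemma hyper_solvable {U : Type} [Group U] [Finite U] (h : Hyper U) : Group.IsSolvable U := by
  obtain ⟨p, hp, c, -, hn, hq⟩ := h
  have hN : (Subgroup.zpowers c).Normal := ⟨fun x hx u => conj_zpowers hn u hx⟩
  have h1 : Group.IsSolvable (Subgroup.zpowers c) := Group.isSolvable_of_comm (zpowers_comm c)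
  have hP : IsPGroup p (U ⧸ Subgroup.zpowers c) := by
    intro q
    obtain ⟨x, rfl⟩ := QuotientGroup.mk_surjective q
    obtain ⟨k, hk⟩ := hq x
    exact ⟨k, by rw [← QuotientGroup.mk_pow]; exact (QuotientGroup.eq_one_iff _).mpr hk⟩
  have : Fact p.Prime := ⟨hp⟩
  have h2 : Group.IsSolvable (U ⧸ Subgroup.zpowers c) := by
    have : Group.IsNilpotent (U ⧸ Subgroup.zpowers c) := hP.isNilpotent
    infer_instance
  refine Group.isSolvable_of_ker_le_range (Subgroup.zpowers c).subtype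
    (QuotientGroup.mk' (Subgroup.zpowers c)) ?_
  rw [QuotientGroup.ker_mk', Subgroup.range_subtype]

/-- the class functions with a continuation -/
def contG (G : Type) (L : (G → ℂ) → ℂ → ℂ) (F : Fam G L) : AddSubgroup (G → ℂ) where
  carrier := {a | ∃ Λ, Cont (L a) Λ}
  zero_mem' := ⟨1, Cont.zero F⟩
  add_mem' := by
    rintro a b ⟨Λ, h⟩ ⟨Λ', h'⟩
    exact ⟨_, Cont.add F h h'⟩
  neg_mem' := by
    rintro a ⟨Λ, h⟩
    exact ⟨_, Cont.neg F h⟩

lemma virt_cont (F : Fam G L) (hE : Entire G L) {f : G → ℂ} (hf : Virt f) :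
    ∃ Λ, Cont (L f) Λ := by
  have h : MonG G ≤ contG G L F := by
    rw [MonG, AddSubgroup.closure_le]
    rintro f ⟨U, ψ, hU, rfl⟩
    obtain ⟨Λ, h1, h2⟩ := hE U (hyper_solvable hU) ψ
    exact ⟨Λ, fun s => (h1.analyticAt s).meromorphicAt, h2⟩
  exact h (virt_mem_mon hf)

/-- the virtual character of the orders at `s₀` -/
noncomputable def th (G : Type) [Group G] [Finite G] (L : (G → ℂ) → ℂ → ℂ) (s₀ : ℂ) : G → ℂ :=
  theta (ordd L s₀)

lemma th_virt (s₀ : ℂ) : Virt (th G L s₀) := theta_virt _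

/-- the pairings of the virtual character of the orders are the orders -/
lemma pr_th (F : Fam G L) (hE : Entire G L) (s₀ : ℂ) {f : G → ℂ} (hf : Virt f) :
    pr (th G L s₀) f = (ordd L s₀ f : ℂ) := by
  classical
  have : Fintype G := Fintype.ofFinite G
  have hf' : f ∈ AddSubgroup.closure (Irr G) := hf
  induction hf' using AddSubgroup.closure_induction with
  | mem χ hχ =>
    rw [pr_eq, th, theta_pair _ hχ, mul_comm, mul_assoc, mul_inv_cancel₀ card_ne, mul_one]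
  | zero => rw [pr_comm, pr_zero_left, ordd_zero F]; simp
  | add a b ha hb iha ihb =>
    rw [pr_comm, pr_add, pr_comm a, pr_comm b, iha ha, ihb hb,
      ordd_add F (virt_cont F hE ha) (virt_cont F hE hb)]
    push_cast; rfl
  | neg a ha iha =>
    rw [pr_comm, pr_neg, pr_comm a, iha ha, ordd_neg F (virt_cont F hE ha)]
    push_cast; rfl

lemma lin_virt (H : Subgroup G) (ψ : H →* ℂˣ) : Virt (ind H (fun h => ((ψ h : ℂˣ) : ℂ))) :=
  virt_ind H (AddSubgroup.subset_closure (lin_irr ψ))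

/-- multiplicities at linear characters of subgroups -/
lemma th_mult (F : Fam G L) (hE : Entire G L) (s₀ : ℂ) (H : Subgroup G) (ψ : H →* ℂˣ) :
    ∑ᶠ h : H, th G L s₀ h * (((ψ h)⁻¹ : ℂˣ) : ℂ)
      = (ordd L s₀ (ind H (fun h => ((ψ h : ℂˣ) : ℂ))) : ℂ) * (Nat.card H : ℂ) := by
  classical
  have : Fintype H := Fintype.ofFinite H
  have h1 := pr_th F hE s₀ (lin_virt H ψ)
  rw [frob' H _ (fun g x => (th_virt s₀).conj g x)] at h1
  rw [← h1, finsum_eq_sum_of_fintype, ← sum_eq_pr]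
  refine Finset.sum_congr rfl fun h _ => ?_
  rw [map_inv]

lemma th_sol (F : Fam G L) (hE : Entire G L) (s₀ : ℂ) : IsSol (th G L s₀) where
  conj g h := (th_virt s₀).conj g h
  mult H hH ψ := by
    obtain ⟨Λ, h1, h2⟩ := hE H hH ψ
    have h3 := ordd_eq F (a := ind H (fun h => ((ψ h : ℂˣ) : ℂ))) (Λ := Λ)
      ⟨fun s => (h1.analyticAt s).meromorphicAt, h2⟩ s₀
    have h4 := (h1.analyticAt s₀).meromorphicOrderAt_nonneg
    rw [h3] at h4
    have h5 : 0 ≤ ordd L s₀ (ind H (fun h => ((ψ h : ℂˣ) : ℂ))) := by exact_mod_cast h4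
    obtain ⟨n, hn⟩ := Int.eq_ofNat_of_zero_le h5
    refine ⟨n, ?_⟩
    rw [th_mult F hE s₀ H ψ, hn]
    push_cast; rfl

/-- the degree is the order of the function of the trivial subgroup -/
lemma th_one (F : Fam G L) (hE : Entire G L) (s₀ : ℂ) :
    th G L s₀ 1 = (ordd L s₀ (ind (⊥ : Subgroup G) (fun _ => 1)) : ℂ) := by
  classical
  have h1 := th_mult F hE s₀ (⊥ : Subgroup G) 1
  have : Fintype (⊥ : Subgroup G) := Fintype.ofFinite _
  rw [finsum_eq_sum_of_fintype, Fintype.sum_eq_single (1 : (⊥ : Subgroup G))] at h1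
  · simpa using h1
  · intro x hx
    exact absurd (Subsingleton.elim x 1) hx

/-- **No poles at zeros of order at most two of the function of the trivial subgroup.** -/
theorem th_heil (F : Fam G L) (hE : Entire G L) {s₀ : ℂ} {Z : ℂ → ℂ}
    (hZ : Cont (L (ind (⊥ : Subgroup G) (fun _ => 1))) Z) (h2 : meromorphicOrderAt Z s₀ ≤ 2) :
    ∃ r : ℕ, r ≤ 2 ∧ th G L s₀ 1 = r ∧ IsHeilbronn (th G L s₀) := by
  obtain ⟨r, hr⟩ := (th_sol F hE s₀).exists_deg
  have h3 := th_one F hE s₀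
  rw [hr] at h3
  have h4 : ordd L s₀ (ind (⊥ : Subgroup G) (fun _ => 1)) = (r : ℤ) := by exact_mod_cast h3.symm
  rw [ordd_eq F hZ s₀, h4] at h2
  have h5 : r ≤ 2 := by
    have : ((r : ℤ) : WithTop ℤ) ≤ ((2 : ℤ) : WithTop ℤ) := h2
    exact_mod_cast this
  exact ⟨r, h5, hr, heilbronn_le_two (th_virt s₀) (th_sol F hE s₀) h5 hr⟩

theorem ordd_nonneg (F : Fam G L) (hE : Entire G L) {s₀ : ℂ} {Z : ℂ → ℂ}
    (hZ : Cont (L (ind (⊥ : Subgroup G) (fun _ => 1))) Z) (h2 : meromorphicOrderAt Z s₀ ≤ 2)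
    (H : Subgroup G) (ψ : H →* ℂˣ) :
    0 ≤ ordd L s₀ (ind H (fun h => ((ψ h : ℂˣ) : ℂ))) := by
  obtain ⟨r, -, -, hh⟩ := th_heil F hE hZ h2
  obtain ⟨n, hn⟩ := hh.mult H ψ
  rw [th_mult F hE s₀ H ψ] at hn
  have h3 : (Nat.card H : ℂ) ≠ 0 := card_ne
  have h4 := mul_right_cancel₀ h3 hn
  have h5 : ordd L s₀ (ind H (fun h => ((ψ h : ℂˣ) : ℂ))) = (n : ℤ) := by exact_mod_cast h4
  rw [h5]
  exact Int.natCast_nonneg n

/-- monotonicity of the multiplicities of the trivial character in degree at most two -/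
lemma mono_two {θ : G → ℂ} (hθ : IsHeilbronn θ) {r : ℕ} (hr : r ≤ 2) (h1 : θ 1 = r)
    {H H' : Subgroup G} (hH : H' ≤ H) {n n' : ℕ}
    (hn : ∑ᶠ h : H, θ h = (n : ℂ) * (Nat.card H : ℂ))
    (hn' : ∑ᶠ h : H', θ h = (n' : ℂ) * (Nat.card H' : ℂ)) : n ≤ n' := by
  classical
  have : Fintype H := Fintype.ofFinite H
  have : Fintype H' := Fintype.ofFinite H'
  rcases Nat.eq_zero_or_pos n with hn0 | hnpos
  · omega
  have hHc : (Nat.card H : ℂ) ≠ 0 := card_ne
  have hHc' : (Nat.card H' : ℂ) ≠ 0 := card_ne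
  have hcr : (0 : ℝ) < Nat.card H := by exact_mod_cast Nat.card_pos
  -- `n ≤ r`
  have hle : n ≤ r := by
    have h2 := (hθ.comp H.subtype).norm_sum_le
    have h3 : ∑ᶠ h : H, θ (H.subtype h) = (n : ℂ) * (Nat.card H : ℂ) := hn
    rw [h3] at h2
    have h4 : θ (H.subtype 1) = r := by simpa using h1
    rw [h4] at h2
    simp only [norm_mul, Complex.norm_natCast, Complex.natCast_re] at h2
    have h5 := le_of_mul_le_mul_right h2 hcr
    exact_mod_cast h5
  -- constant functions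
  have hconst : (∀ h : H, θ h = n) → n ≤ n' := by
    intro hc
    have h2 : ∑ᶠ h : H', θ h = (n : ℂ) * (Nat.card H' : ℂ) := by
      rw [finsum_eq_sum_of_fintype]
      have h3 : ∀ h : H', θ h = n := fun h => hc ⟨h, hH h.2⟩
      rw [Finset.sum_congr rfl (fun h _ => h3 h), Finset.sum_const, Finset.card_univ,
        nsmul_eq_mul, ← Nat.card_eq_fintype_card, mul_comm]
    rw [h2] at hn'
    have h3 := mul_right_cancel₀ hHc' hn'
    have h4 : n = n' := by exact_mod_cast h3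
    omega
  by_cases hnr : n = r
  · apply hconst
    intro h
    have h2 : ∑ᶠ x : H, (fun y : H => θ y) x = (fun y : H => θ y) 1 * Nat.card H := by
      change ∑ᶠ x : H, θ x = θ ((1 : H) : G) * Nat.card H
      rw [hn, Subgroup.coe_one, h1, hnr]
    have h3 := (hθ.comp H.subtype).const_of_sum h2 h
    change θ h = θ ((1 : H) : G) at h3
    rw [h3, Subgroup.coe_one, h1, hnr]
  · -- now `r = 2`, `n = 1`
    have hr2 : r = 2 := by omega
    have hn1 : n = 1 := by omega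
    subst hr2; subst hn1
    have h2 : ∑ᶠ x : H, θ (H.subtype x) ≠ 0 := by
      have h3 : ∑ᶠ h : H, θ (H.subtype h) = ((1 : ℕ) : ℂ) * (Nat.card H : ℂ) := hn
      rw [h3]; simp [hHc]
    obtain ⟨D, hD⟩ := (hθ.comp H.subtype).two_contains_one (by simpa using h1) h2
    have h3 : ∑ᶠ h : H', θ h = (Nat.card H' : ℂ) + ∑ᶠ h : H', ((D (Subgroup.inclusion hH h) : ℂˣ) : ℂ) := by
      rw [finsum_eq_sum_of_fintype, finsum_eq_sum_of_fintype]
      have h4 : ∀ h : H', θ h = 1 + ((D (Subgroup.inclusion hH h) : ℂˣ) : ℂ) :=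
        fun h => hD (Subgroup.inclusion hH h)
      rw [Finset.sum_congr rfl (fun h _ => h4 h), Finset.sum_add_distrib, Finset.sum_const,
        Finset.card_univ, nsmul_eq_mul, mul_one, ← Nat.card_eq_fintype_card]
    by_contra hlt
    have hn0 : n' = 0 := by omega
    subst hn0
    rw [hn'] at h3
    by_cases hD1 : D.comp (Subgroup.inclusion hH) = 1
    · have h4 : ∀ h : H', ((D (Subgroup.inclusion hH h) : ℂˣ) : ℂ) = 1 := by
        intro h
        have := DFunLike.congr_fun hD1 h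
        rw [MonoidHom.comp_apply] at this
        rw [this]; rfl
      rw [finsum_eq_sum_of_fintype, Finset.sum_congr rfl (fun h _ => h4 h), Finset.sum_const,
        Finset.card_univ, nsmul_eq_mul, mul_one, ← Nat.card_eq_fintype_card] at h3
      apply hHc'
      simp only [Nat.cast_zero, zero_mul] at h3
      have : (2 : ℂ) * Nat.card H' = 0 := by rw [h3]; ring
      rcases mul_eq_zero.mp this with h | h
      · norm_num at h
      · exact h
    · have h4 := finsum_char_eq_zero (D.comp (Subgroup.inclusion hH)) hD1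
      have h5 : ∑ᶠ h : H', ((D (Subgroup.inclusion hH h) : ℂˣ) : ℂ) = 0 := h4
      rw [h5] at h3
      apply hHc'
      simpa using h3.symm

theorem ordd_mono (F : Fam G L) (hE : Entire G L) {s₀ : ℂ} {Z : ℂ → ℂ}
    (hZ : Cont (L (ind (⊥ : Subgroup G) (fun _ => 1))) Z) (h2 : meromorphicOrderAt Z s₀ ≤ 2)
    {H H' : Subgroup G} (hH : H' ≤ H) :
    ordd L s₀ (ind H (fun _ => 1)) ≤ ordd L s₀ (ind H' (fun _ => 1)) := by
  obtain ⟨r, hr, h1, hh⟩ := th_heil F hE hZ h2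
  have key : ∀ H : Subgroup G, ∃ n : ℕ, ordd L s₀ (ind H (fun _ => 1)) = (n : ℤ) ∧
      ∑ᶠ h : H, th G L s₀ h = (n : ℂ) * (Nat.card H : ℂ) := by
    intro H
    have h3 := ordd_nonneg F hE hZ h2 H 1
    have h4 := th_mult F hE s₀ H 1
    simp only [MonoidHom.one_apply, inv_one, Units.val_one, mul_one] at h3 h4
    obtain ⟨n, hn⟩ := Int.eq_ofNat_of_zero_le h3
    refine ⟨n, hn, ?_⟩
    rw [h4, hn]
    push_cast; rfl
  obtain ⟨n, hn, hn2⟩ := key H
  obtain ⟨n', hn', hn2'⟩ := key H'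
  rw [hn, hn']
  exact_mod_cast mono_two hh hr h1 hH hn2 hn2'

end

end Pool.Agent.E8helper84.EH
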