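import Mathlib
import Pool.Agent.R389.Defs

/-!
# Definitions: an elliptic curve over a number field and its twists by Galois characters

`K` is a number field, `E` an elliptic curve over `K` with minimal models `V v`, `F/K` a finite Galois
extension with group `G = F ≃ₐ[K] F`.

`Pool.Agent.R389.ind H f` is the function on `G` induced from the function `f` on the subgroup `H`.
-/

set_option autoImplicit false
open Classical

namespace Pool.Agent.E8helper84.EH

open NumberField IsDedekindDomain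

section
variable {K : Type} [Field K] [NumberField K]

/-- `V v` is, for every `v`, an integral model of `E` with discriminant minimal at `v`. -/
def MinimalModels (E : WeierstrassCurve K)
    (V : HeightOneSpectrum (𝓞 K) → WeierstrassCurve (𝓞 K)) : Prop :=
  ∀ v : HeightOneSpectrum (𝓞 K),
    (∃ C : WeierstrassCurve.VariableChange K, C • E = (V v).map (algebraMap (𝓞 K) K)) ∧
    ∀ W : WeierstrassCurve (𝓞 K),
      (∃ C : WeierstrassCurve.VariableChange K, C • E = W.map (algebraMap (𝓞 K) K)) →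
        ∀ n : ℕ, (V v).Δ ∈ v.asIdeal ^ n → W.Δ ∈ v.asIdeal ^ n

/-- `a_v`: the norm `q_v` of `v` minus the number of the affine points of the reduction of `V v`. -/
noncomputable def trace (V : HeightOneSpectrum (𝓞 K) → WeierstrassCurve (𝓞 K))
    (v : HeightOneSpectrum (𝓞 K)) : ℤ :=
  ((Ideal.absNorm v.asIdeal : ℕ) : ℤ) -
    ((Nat.card {p : (𝓞 K ⧸ v.asIdeal) × (𝓞 K ⧸ v.asIdeal) //
      p.2 ^ 2 + Ideal.Quotient.mk v.asIdeal (V v).a₁ * p.1 * p.2
        + Ideal.Quotient.mk v.asIdeal (V v).a₃ * p.2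
      = p.1 ^ 3 + Ideal.Quotient.mk v.asIdeal (V v).a₂ * p.1 ^ 2
        + Ideal.Quotient.mk v.asIdeal (V v).a₄ * p.1
        + Ideal.Quotient.mk v.asIdeal (V v).a₆} : ℕ) : ℤ)

/-- The Euler polynomial at `v`: `1 - a_v q_v^{-s} + q_v^{1 - 2s}` if the reduction is good, and
`1 - a_v q_v^{-s}` if it is bad. -/
noncomputable def eulerPoly (V : HeightOneSpectrum (𝓞 K) → WeierstrassCurve (𝓞 K))
    (v : HeightOneSpectrum (𝓞 K)) (s : ℂ) : ℂ :=
  1 - (trace V v : ℂ) * ((Ideal.absNorm v.asIdeal : ℕ) : ℂ) ^ (-s)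
    + (if (V v).Δ ∈ v.asIdeal then (0 : ℂ) else 1)
      * ((Ideal.absNorm v.asIdeal : ℕ) : ℂ) ^ (1 - 2 * s)

/-- `L(E/K, s)`: the Euler product of the problem. -/
noncomputable def LSeries (V : HeightOneSpectrum (𝓞 K) → WeierstrassCurve (𝓞 K)) (s : ℂ) : ℂ :=
  ∏' v : HeightOneSpectrum (𝓞 K), (eulerPoly V v s)⁻¹

/-- `α^k + β^k`, where `1 - a_v T + q_v T² = (1 - α T)(1 - β T)`: the trace of the `k`-th power of the
Frobenius at a place of good reduction. -/
noncomputable def powTrace (V : HeightOneSpectrum (𝓞 K) → WeierstrassCurve (𝓞 K))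
    (v : HeightOneSpectrum (𝓞 K)) : ℕ → ℤ
  | 0 => 2
  | 1 => trace V v
  | k + 2 => trace V v * powTrace V v (k + 1) - (Ideal.absNorm v.asIdeal : ℤ) * powTrace V v k

end

section
variable {K : Type} [Field K] [NumberField K] (F : Type) [Field F] [NumberField F] [Algebra K F]

/-- `v` is unramified in `F`. -/
def Unramified (v : HeightOneSpectrum (𝓞 K)) : Prop :=
  ∀ w : HeightOneSpectrum (𝓞 F), w.asIdeal.comap (algebraMap (𝓞 K) (𝓞 F)) = v.asIdeal →
    ¬ v.asIdeal.map (algebraMap (𝓞 K) (𝓞 F)) ≤ w.asIdeal ^ 2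

variable {F}

/-- `σ` is a Frobenius element at `v`: `σ x ≡ x^{q_v}` modulo some prime `w` of `F` above `v`. -/
def IsFrobenius (v : HeightOneSpectrum (𝓞 K)) (σ : F ≃ₐ[K] F) : Prop :=
  ∃ w : HeightOneSpectrum (𝓞 F), w.asIdeal.comap (algebraMap (𝓞 K) (𝓞 F)) = v.asIdeal ∧
    ∀ x y : 𝓞 F, (y : F) = σ x → y - x ^ Ideal.absNorm v.asIdeal ∈ w.asIdeal

/-- The L-function of `E` over `K` twisted by the character `χ` of `Gal(F/K)`, without the Euler
factors at the places in `S`, for `Re s > 3/2`: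
`log L(E ⊗ χ, s) = ∑_{v ∉ S} ∑_{k ≥ 1} (α_v^k + β_v^k) χ(Frob_v^k) / (k q_v^{ks})`. If `χ` is the
character induced from a linear character `ψ` of the subgroup `H = Gal(F/M)`, then this is the
L-function of `E` over `M` twisted by `ψ`; it is `L(E/M, s)` if `ψ = 1`. -/
noncomputable def LTwist (V : HeightOneSpectrum (𝓞 K) → WeierstrassCurve (𝓞 K))
    (S : Finset (HeightOneSpectrum (𝓞 K))) (Frob : HeightOneSpectrum (𝓞 K) → (F ≃ₐ[K] F))
    (χ : (F ≃ₐ[K] F) → ℂ) (s : ℂ) : ℂ :=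
  Complex.exp (∑' v : {v : HeightOneSpectrum (𝓞 K) // v ∉ S}, ∑' k : ℕ,
    (powTrace V v.1 (k + 1) : ℂ) * χ (Frob v.1 ^ (k + 1)) / (k + 1) *
      ((Ideal.absNorm v.1.asIdeal : ℕ) : ℂ) ^ (-((k + 1) * s)))

end

end Pool.Agent.E8helper84.EH
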