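import Mathlib
import Pool.Agent.E8helper84.EH.Defs
import Pool.Agent.H341R2.NF.TwistEC
import Pool.Agent.H921R2.TatePole.Dedekind

/-!
# Local estimates
-/

set_option autoImplicit false
set_option linter.unusedSectionVars false

namespace Pool.Agent.E8helper84.EH

open NumberField IsDedekindDomain Pool.Agent.H341R2 Pool.Agent.H341R2.EC Filter Topology
open Pool.Agent.H921R2.TatePole (nm two_le_nm nm_summable)

section
variable {K : Type} [Field K] [NumberField K]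

lemma trace_eq (V : HeightOneSpectrum (𝓞 K) → WeierstrassCurve (𝓞 K))
    (v : HeightOneSpectrum (𝓞 K)) : trace V v = (nm v : ℤ) - (aff (red v (V v)) : ℤ) := rfl

lemma trace_le (V : HeightOneSpectrum (𝓞 K) → WeierstrassCurve (𝓞 K))
    (v : HeightOneSpectrum (𝓞 K)) : |(trace V v : ℝ)| ≤ nm v := by
  have h1 := aff_le (red v (V v))
  rw [card_v] at h1
  have h2 : |trace V v| ≤ nm v := by
    rw [trace_eq, abs_le]
    constructor <;> omega
  exact_mod_cast h2

/-- Hasse's bound -/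
lemma trace_hasse (V : HeightOneSpectrum (𝓞 K) → WeierstrassCurve (𝓞 K))
    {v : HeightOneSpectrum (𝓞 K)} (h6 : (6 : 𝓞 K) ∉ v.asIdeal) (hΔ : (V v).Δ ∉ v.asIdeal) :
    |(trace V v : ℝ)| ≤ 2 * Real.sqrt (nm v) := by
  have h6' : (6 : 𝓞 K ⧸ v.asIdeal) ≠ 0 := by
    have := mk_ne h6
    rwa [map_ofNat] at this
  have hΔ' : (red v (V v)).Δ ≠ 0 := by
    have := mk_ne hΔ
    rwa [← WeierstrassCurve.map_Δ] at this
  have h1 := aff_eq_short h6' (red v (V v))
  have h2 := short_eq h6' (red v (V v)).c₄ (red v (V v)).c₆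
  have h3 : (red v (V v)).c₄ ^ 3 - (red v (V v)).c₆ ^ 2 ≠ 0 := by
    have h4 := (red v (V v)).c_relation
    rw [← h4]
    have h5 : (1728 : 𝓞 K ⧸ v.asIdeal) ≠ 0 := by
      have : (1728 : 𝓞 K ⧸ v.asIdeal) = 6 * 6 * 6 * 8 := by norm_num
      rw [this]
      have h8 : (8 : 𝓞 K ⧸ v.asIdeal) ≠ 0 := by
        intro h
        have h2' : (2 : 𝓞 K ⧸ v.asIdeal) = 0 := by
          have : (2 : 𝓞 K ⧸ v.asIdeal) ^ 3 = 0 := by rw [← h]; norm_num
          exact pow_eq_zero_iff (three_ne_zero) |>.mp this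
        apply h6'
        have : (6 : 𝓞 K ⧸ v.asIdeal) = 2 * 3 := by norm_num
        rw [this, h2', zero_mul]
      exact mul_ne_zero (mul_ne_zero (mul_ne_zero h6' h6') h6') h8
    exact mul_ne_zero h5 hΔ'
  have h4 := csum_bound h6' h3
  rw [card_v] at h4 h2
  rw [trace_eq, h1]
  have h5 : ((nm v : ℤ) - (short (red v (V v)).c₄ (red v (V v)).c₆ : ℤ) : ℤ)
      = - csum (red v (V v)).c₄ (red v (V v)).c₆ := by
    rw [h2]
    unfold csum
    ring
  rw [h5]
  push_cast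
  rw [abs_neg]
  exact h4

/-- the roots of `X² - a X + q` -/
lemma exists_roots (a : ℤ) {q : ℕ} (hq : 2 ≤ q) (ha : |(a : ℝ)| ≤ q) : ∃ α β : ℂ, α + β = a ∧
    α * β = q ∧ ‖α‖ < (q : ℝ) ^ (3 / 2 : ℝ) ∧ ‖β‖ < (q : ℝ) ^ (3 / 2 : ℝ) ∧
    (|(a : ℝ)| ≤ 2 * Real.sqrt q → ‖α‖ = Real.sqrt q ∧ ‖β‖ = Real.sqrt q) := by
  have hq0 : (0 : ℝ) ≤ q := Nat.cast_nonneg q
  have hq2 : (2 : ℝ) ≤ q := by exact_mod_cast hq
  set r := Real.sqrt q with hr
  have hr2 : r ^ 2 = q := Real.sq_sqrt hq0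
  have hr0 : 0 ≤ r := Real.sqrt_nonneg _
  have hr1 : (1.4142 : ℝ) < r := by
    rw [hr]
    apply Real.lt_sqrt_of_sq_lt
    norm_num
    linarith
  have hq32 : (q : ℝ) ^ (3 / 2 : ℝ) = q * r := by
    rw [hr, Real.sqrt_eq_rpow, ← Real.rpow_one_add' hq0 (by norm_num)]
    norm_num
  have hrlt : r < q * r := by nlinarith
  by_cases h : |(a : ℝ)| ≤ 2 * r
  · set d := Real.sqrt (4 * q - a ^ 2) with hd
    have hsq : (a : ℝ) ^ 2 ≤ 4 * q := by
      have := sq_abs (a : ℝ)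
      nlinarith [abs_nonneg (a : ℝ)]
    have hd2 : d ^ 2 = 4 * q - a ^ 2 := Real.sq_sqrt (by linarith)
    have hd2c : (d : ℂ) ^ 2 = 4 * q - a ^ 2 := by exact_mod_cast hd2
    have hnorm : ∀ ε : ℝ, ε ^ 2 = 1 → ‖((a : ℂ) + (ε * d : ℝ) * Complex.I) / 2‖ = r := by
      intro ε hε
      have h1 : ‖((a : ℂ) + (ε * d : ℝ) * Complex.I) / 2‖ ^ 2 = r ^ 2 := by
        rw [← Complex.normSq_eq_norm_sq, map_div₀]
        have h2 : Complex.normSq ((a : ℂ) + (ε * d : ℝ) * Complex.I) = a ^ 2 + (ε * d) ^ 2 := by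
          have := Complex.normSq_add_mul_I (a : ℝ) (ε * d)
          simpa using this
        rw [h2, hr2]
        have h3 : Complex.normSq 2 = 4 := by
          rw [Complex.normSq_apply]; norm_num
        rw [h3, mul_pow, hε, hd2]
        ring
      exact (pow_left_inj₀ (norm_nonneg _) hr0 two_ne_zero).mp h1
    refine ⟨((a : ℂ) + (1 * d : ℝ) * Complex.I) / 2, ((a : ℂ) + ((-1) * d : ℝ) * Complex.I) / 2,
      ?_, ?_, ?_, ?_, fun _ => ⟨hnorm 1 (by norm_num), hnorm (-1) (by norm_num)⟩⟩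
    · push_cast; ring
    · push_cast
      linear_combination (1 / 4 : ℂ) * hd2c + (-(d : ℂ) ^ 2 / 4) * Complex.I_sq
    · rw [hnorm 1 (by norm_num), hq32]; exact hrlt
    · rw [hnorm (-1) (by norm_num), hq32]; exact hrlt
  · have hsq := (IsAlgClosed.exists_pow_nat_eq ((a : ℂ) ^ 2 - 4 * q) (n := 2) (by norm_num))
    obtain ⟨δ, hδ⟩ := hsq
    have hbound : ∀ z w : ℂ, z + w = a → z * w = q → ‖z‖ < (q : ℝ) ^ (3 / 2 : ℝ) := by
      intro z w h1 h2
      rw [hq32]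
      by_contra hcon
      push Not at hcon
      have h3 : z ^ 2 = a * z - q := by
        have : w = a - z := by rw [← h1]; ring
        rw [this] at h2
        linear_combination -h2
      have h4 : ‖z‖ ^ 2 ≤ q * ‖z‖ + q := by
        rw [← norm_pow, h3]
        refine (norm_sub_le _ _).trans ?_
        rw [norm_mul, Complex.norm_natCast, Complex.norm_intCast]
        have := mul_le_mul_of_nonneg_right ha (norm_nonneg z)
        linarith
      have h5 : (0:ℝ) ≤ ‖z‖ := norm_nonneg z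
      nlinarith [mul_nonneg hq0 (sub_nonneg.mpr hcon), mul_self_nonneg (‖z‖ - q * r), hr1, hr2,
        mul_pos (by linarith : (0:ℝ) < q) (by linarith : (0:ℝ) < r),
        mul_nonneg (sub_nonneg.mpr hcon) (sub_nonneg.mpr hcon),
        mul_nonneg (sub_nonneg.mpr hcon) (mul_nonneg hq0 (by linarith : (0:ℝ) ≤ r - 1)),
        mul_nonneg hq0 (by nlinarith : (0:ℝ) ≤ q * (q - r - 1 / 2) - 1 / 2)]
    refine ⟨((a : ℂ) + δ) / 2, ((a : ℂ) - δ) / 2, by ring, ?_, ?_, ?_, fun h' => absurd h' h⟩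
    · linear_combination (-1 / 4 : ℂ) * hδ
    · refine hbound _ (((a : ℂ) - δ) / 2) (by ring) ?_
      linear_combination (-1 / 4 : ℂ) * hδ
    · refine hbound _ (((a : ℂ) + δ) / 2) (by ring) ?_
      linear_combination (-1 / 4 : ℂ) * hδ

lemma powTrace_eq (V : HeightOneSpectrum (𝓞 K) → WeierstrassCurve (𝓞 K))
    (v : HeightOneSpectrum (𝓞 K)) {α β : ℂ} (h1 : α + β = trace V v) (h2 : α * β = (nm v : ℂ)) :
    ∀ k : ℕ, (powTrace V v k : ℂ) = α ^ k + β ^ k := by
  intro k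
  induction k using Nat.strong_induction_on with
  | _ k ih =>
    match k with
    | 0 => simp [powTrace]; norm_num
    | 1 => simp [powTrace, h1]
    | k + 2 =>
      have e1 := ih k (by omega)
      have e2 := ih (k + 1) (by omega)
      have h3 : ((Ideal.absNorm v.asIdeal : ℕ) : ℂ) = (nm v : ℂ) := rfl
      rw [powTrace]
      push_cast
      rw [e1, e2, h3, ← h1, ← h2]
      ring

end

end Pool.Agent.E8helper84.EH
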