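import Mathlib
import Pool.Agent.E8helper84.EH.Loc
import Pool.Agent.E8helper84.EH.An

/-!
# Convergence of the twisted L-functions, and the Euler product
-/

set_option autoImplicit false
set_option linter.unusedSectionVars false

namespace Pool.Agent.E8helper84.EH

open NumberField IsDedekindDomain Filter Topology Complex
open Pool.Agent.H921R2.TatePole (nm two_le_nm nm_summable)

section
variable {K : Type} [Field K] [NumberField K]
  {V : HeightOneSpectrum (𝓞 K) → WeierstrassCurve (𝓞 K)}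

lemma pw_norm (v : HeightOneSpectrum (𝓞 K)) (s : ℂ) :
    ‖((nm v : ℕ) : ℂ) ^ (-s)‖ = (nm v : ℝ) ^ (-s.re) := by
  rw [Complex.norm_natCast_cpow_of_pos (by have := two_le_nm v; omega)]
  simp

lemma pw_pow (v : HeightOneSpectrum (𝓞 K)) (s : ℂ) (k : ℕ) :
    ((nm v : ℕ) : ℂ) ^ (-(((k : ℂ) + 1) * s)) = (((nm v : ℕ) : ℂ) ^ (-s)) ^ (k + 1) := by
  rw [← Complex.cpow_nat_mul]
  congr 1
  push_cast
  ring

/-- the term of the logarithm -/
noncomputable def term (V : HeightOneSpectrum (𝓞 K) → WeierstrassCurve (𝓞 K))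
    (v : HeightOneSpectrum (𝓞 K)) (c : ℕ → ℂ) (s : ℂ) (k : ℕ) : ℂ :=
  (powTrace V v (k + 1) : ℂ) * c (k + 1) / (k + 1) * ((nm v : ℕ) : ℂ) ^ (-((k + 1) * s))

lemma term_bound {v : HeightOneSpectrum (𝓞 K)} {α β : ℂ} (h1 : α + β = trace V v)
    (h2 : α * β = (nm v : ℂ)) {R : ℝ} (hα : ‖α‖ ≤ R) (hβ : ‖β‖ ≤ R) {c : ℕ → ℂ} {C : ℝ}
    (hC : ∀ k, ‖c k‖ ≤ C) (s : ℂ) (k : ℕ) :
    ‖term V v c s k‖ ≤ 2 * C * (R * (nm v : ℝ) ^ (-s.re)) ^ (k + 1) := by
  have hR : 0 ≤ R := (norm_nonneg α).trans hα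
  have hC0 : 0 ≤ C := (norm_nonneg (c 0)).trans (hC 0)
  unfold term
  rw [powTrace_eq V v h1 h2, pw_pow, norm_mul, norm_div, norm_mul, norm_pow, pw_norm]
  have h3 : ‖α ^ (k + 1) + β ^ (k + 1)‖ ≤ 2 * R ^ (k + 1) := by
    refine (norm_add_le _ _).trans ?_
    rw [norm_pow, norm_pow]
    have h4 := pow_le_pow_left₀ (norm_nonneg α) hα (k + 1)
    have h5 := pow_le_pow_left₀ (norm_nonneg β) hβ (k + 1)
    linarith
  have h4 : (1 : ℝ) ≤ ‖((k : ℂ) + 1)‖ := by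
    have : ((k : ℂ) + 1) = ((k + 1 : ℕ) : ℂ) := by push_cast; rfl
    rw [this, Complex.norm_natCast]
    exact_mod_cast Nat.succ_le_succ (Nat.zero_le k)
  have h5 : ‖α ^ (k + 1) + β ^ (k + 1)‖ * ‖c (k + 1)‖ / ‖((k : ℂ) + 1)‖ ≤ 2 * R ^ (k + 1) * C := by
    refine (div_le_self (by positivity) h4).trans ?_
    exact mul_le_mul h3 (hC _) (norm_nonneg _) (by positivity)
  calc ‖α ^ (k + 1) + β ^ (k + 1)‖ * ‖c (k + 1)‖ / ‖((k : ℂ) + 1)‖ * ((nm v : ℝ) ^ (-s.re)) ^ (k + 1)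
      ≤ 2 * R ^ (k + 1) * C * ((nm v : ℝ) ^ (-s.re)) ^ (k + 1) :=
        mul_le_mul_of_nonneg_right h5 (by positivity)
    _ = _ := by rw [mul_pow]; ring

lemma roots (V : HeightOneSpectrum (𝓞 K) → WeierstrassCurve (𝓞 K)) (v : HeightOneSpectrum (𝓞 K)) :
    ∃ α β : ℂ, α + β = trace V v ∧ α * β = (nm v : ℂ) ∧ ‖α‖ < (nm v : ℝ) ^ (3 / 2 : ℝ) ∧
      ‖β‖ < (nm v : ℝ) ^ (3 / 2 : ℝ) ∧
      (|(trace V v : ℝ)| ≤ 2 * Real.sqrt (nm v) → ‖α‖ = Real.sqrt (nm v) ∧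
        ‖β‖ = Real.sqrt (nm v)) :=
  exists_roots (trace V v) (two_le_nm v) (trace_le V v)

lemma lt_one_of {v : HeightOneSpectrum (𝓞 K)} {s : ℂ} (hs : 3 / 2 < s.re) {α : ℂ}
    (hα : ‖α‖ < (nm v : ℝ) ^ (3 / 2 : ℝ)) : ‖α‖ * (nm v : ℝ) ^ (-s.re) < 1 := by
  have hq : (1 : ℝ) ≤ nm v := by
    have := two_le_nm v
    exact_mod_cast (by omega : 1 ≤ nm v)
  have hq0 : (0 : ℝ) < nm v := by linarith
  have h1 : (nm v : ℝ) ^ (-s.re) ≤ (nm v : ℝ) ^ (-(3 / 2 : ℝ)) :=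
    Real.rpow_le_rpow_of_exponent_le hq (by linarith)
  have h2 : (0 : ℝ) < (nm v : ℝ) ^ (-(3 / 2 : ℝ)) := Real.rpow_pos_of_pos hq0 _
  calc ‖α‖ * (nm v : ℝ) ^ (-s.re) ≤ ‖α‖ * (nm v : ℝ) ^ (-(3 / 2 : ℝ)) :=
        mul_le_mul_of_nonneg_left h1 (norm_nonneg _)
    _ < (nm v : ℝ) ^ (3 / 2 : ℝ) * (nm v : ℝ) ^ (-(3 / 2 : ℝ)) := mul_lt_mul_of_pos_right hα h2
    _ = 1 := by rw [← Real.rpow_add hq0]; norm_num

/-- the inner sum converges absolutely -/
lemma term_summable (V : HeightOneSpectrum (𝓞 K) → WeierstrassCurve (𝓞 K))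
    (v : HeightOneSpectrum (𝓞 K)) {c : ℕ → ℂ} {C : ℝ}
    (hC : ∀ k, ‖c k‖ ≤ C) {s : ℂ} (hs : 3 / 2 < s.re) : Summable (term V v c s) := by
  obtain ⟨α, β, h1, h2, hα, hβ, -⟩ := roots V v
  set R := max ‖α‖ ‖β‖ with hR
  have hR1 : R * (nm v : ℝ) ^ (-s.re) < 1 := by
    rcases max_choice ‖α‖ ‖β‖ with h | h
    · rw [hR, h]; exact lt_one_of hs hα
    · rw [hR, h]; exact lt_one_of hs hβ
  have hR0 : 0 ≤ R * (nm v : ℝ) ^ (-s.re) := by
    have : 0 ≤ R := (norm_nonneg α).trans (le_max_left _ _)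
    positivity
  refine Summable.of_norm_bounded ?_ (term_bound h1 h2 (le_max_left _ _) (le_max_right _ _) hC s)
  have h3 := (summable_geometric_of_lt_one hR0 hR1).mul_left (2 * C * (R * (nm v : ℝ) ^ (-s.re)))
  refine h3.congr fun k => ?_
  rw [pow_succ]; ring

/-- the size of the inner sum at the good places -/
lemma inner_bound {v : HeightOneSpectrum (𝓞 K)} (h : |(trace V v : ℝ)| ≤ 2 * Real.sqrt (nm v))
    {c : ℕ → ℂ} {C : ℝ} (hC : ∀ k, ‖c k‖ ≤ C) {s : ℂ} (hs : 3 / 2 < s.re) :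
    ‖∑' k, term V v c s k‖ ≤ 4 * C * (nm v : ℝ) ^ (-(s.re - 1 / 2)) := by
  obtain ⟨α, β, h1, h2, -, -, h3⟩ := roots V v
  obtain ⟨hα, hβ⟩ := h3 h
  have hC0 : 0 ≤ C := (norm_nonneg (c 0)).trans (hC 0)
  have hq2 : (2 : ℝ) ≤ nm v := by exact_mod_cast two_le_nm v
  have hq0 : (0 : ℝ) < nm v := by linarith
  set x := (nm v : ℝ) ^ (-(s.re - 1 / 2)) with hx
  have hxe : Real.sqrt (nm v) * (nm v : ℝ) ^ (-s.re) = x := by
    rw [Real.sqrt_eq_rpow, ← Real.rpow_add hq0, hx]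
    congr 1; ring
  have hx0 : 0 ≤ x := by positivity
  have hx1 : x ≤ 1 / 2 := by
    have h4 : x ≤ (nm v : ℝ) ^ (-1 : ℝ) :=
      Real.rpow_le_rpow_of_exponent_le (by linarith) (by linarith)
    rw [Real.rpow_neg_one] at h4
    refine h4.trans ?_
    rw [one_div]
    exact inv_anti₀ (by norm_num) hq2
  have hb := term_bound h1 h2 hα.le hβ.le hC s
  rw [hxe] at hb
  have hsum : HasSum (fun k : ℕ => 2 * C * x ^ (k + 1)) (2 * C * (x * (1 - x)⁻¹)) := by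
    have h4 := (hasSum_geometric_of_lt_one hx0 (by linarith)).mul_left (2 * C * x)
    have h5 : 2 * C * x * (1 - x)⁻¹ = 2 * C * (x * (1 - x)⁻¹) := by ring
    rw [h5] at h4
    refine h4.congr_fun ?_ |> fun h => h
    intro k
    rw [pow_succ]; ring
  refine (tsum_of_norm_bounded hsum hb).trans ?_
  have h4 : (1 - x)⁻¹ ≤ 2 := by
    rw [inv_le_comm₀ (by linarith) (by norm_num)]
    linarith
  have h5 : x * (1 - x)⁻¹ ≤ x * 2 := mul_le_mul_of_nonneg_left h4 hx0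
  calc 2 * C * (x * (1 - x)⁻¹) ≤ 2 * C * (x * 2) := mul_le_mul_of_nonneg_left h5 (by positivity)
    _ = 4 * C * x := by ring

lemma six_finite : {v : HeightOneSpectrum (𝓞 K) | (6 : 𝓞 K) ∈ v.asIdeal}.Finite :=
  Pool.Agent.H341R2.EC.finite_mem (by norm_num)

/-- the outer sum converges absolutely -/
lemma outer_summable {S : Finset (HeightOneSpectrum (𝓞 K))}
    (hS : ∀ v ∉ S, (V v).Δ ∉ v.asIdeal) {c : HeightOneSpectrum (𝓞 K) → ℕ → ℂ} {C : ℝ}
    (hC : ∀ v k, ‖c v k‖ ≤ C) {s : ℂ} (hs : 3 / 2 < s.re) :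
    Summable (fun v : {v : HeightOneSpectrum (𝓞 K) // v ∉ S} => ∑' k, term V v.1 (c v.1) s k) := by
  have h1 : Summable (fun v : {v : HeightOneSpectrum (𝓞 K) // v ∉ S} =>
      4 * C * (nm v.1 : ℝ) ^ (-(s.re - 1 / 2))) :=
    ((nm_summable (K := K) (x := s.re - 1 / 2) (by linarith)).subtype _).mul_left _
  refine Summable.of_norm_bounded_eventually h1 ?_
  have h2 : {v : {v : HeightOneSpectrum (𝓞 K) // v ∉ S} | (6 : 𝓞 K) ∈ v.1.asIdeal}.Finite :=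
    Set.Finite.preimage (f := Subtype.val) Subtype.val_injective.injOn six_finite
  filter_upwards [h2.compl_mem_cofinite] with v hv
  exact inner_bound (trace_hasse V hv (hS v.1 v.2)) (hC v.1) hs

end

section
variable {K F : Type} [Field K] [NumberField K] [Field F] [NumberField F] [Algebra K F]
  {V : HeightOneSpectrum (𝓞 K) → WeierstrassCurve (𝓞 K)}
  {S : Finset (HeightOneSpectrum (𝓞 K))} {Frob : HeightOneSpectrum (𝓞 K) → (F ≃ₐ[K] F)}

instance : Finite (F ≃ₐ[K] F) := by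
  infer_instance

lemma LTwist_eq (χ : (F ≃ₐ[K] F) → ℂ) (s : ℂ) :
    LTwist V S Frob χ s = cexp (∑' v : {v : HeightOneSpectrum (𝓞 K) // v ∉ S},
      ∑' k, term V v.1 (fun k => χ (Frob v.1 ^ k)) s k) := rfl

lemma exists_bound {G : Type*} [Finite G] (χ : G → ℂ) : ∃ C : ℝ, ∀ g, ‖χ g‖ ≤ C := by
  obtain ⟨C, hC⟩ := (Set.finite_range fun g => ‖χ g‖).bddAbove
  exact ⟨C, fun g => hC ⟨g, rfl⟩⟩

/-- the family of the twisted L-functions -/
lemma fam (hS : ∀ v ∉ S, (V v).Δ ∉ v.asIdeal) : Fam (F ≃ₐ[K] F) (LTwist V S Frob) where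
  add a b s hs := by
    obtain ⟨A, hA⟩ := exists_bound a
    obtain ⟨B, hB⟩ := exists_bound b
    rw [LTwist_eq, LTwist_eq, LTwist_eq, ← Complex.exp_add]
    congr 1
    rw [← (outer_summable hS (c := fun v k => a (Frob v ^ k)) (fun v k => hA _) hs).tsum_add
      (outer_summable hS (c := fun v k => b (Frob v ^ k)) (fun v k => hB _) hs)]
    refine tsum_congr fun v => ?_
    rw [← (term_summable V v.1 (c := fun k => a (Frob v.1 ^ k)) (fun k => hA _) hs).tsum_add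
      (term_summable V v.1 (c := fun k => b (Frob v.1 ^ k)) (fun k => hB _) hs)]
    refine tsum_congr fun k => ?_
    unfold term
    simp only [Pi.add_apply]
    ring
  ne a s _ := Complex.exp_ne_zero _

/-- the Euler factors for the trivial character -/
lemma factor {v : HeightOneSpectrum (𝓞 K)} (hv : (V v).Δ ∉ v.asIdeal) {s : ℂ}
    (hs : 3 / 2 < s.re) : cexp (∑' k, term V v (fun _ => 1) s k) = (eulerPoly V v s)⁻¹ := by
  obtain ⟨α, β, h1, h2, hα, hβ, -⟩ := roots V v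
  set T := ((nm v : ℕ) : ℂ) ^ (-s) with hT
  have hq0 : ((nm v : ℕ) : ℂ) ≠ 0 := by
    have := two_le_nm v
    exact_mod_cast (by omega : nm v ≠ 0)
  have hαT : ‖α * T‖ < 1 := by rw [norm_mul, hT, pw_norm]; exact lt_one_of hs hα
  have hβT : ‖β * T‖ < 1 := by rw [norm_mul, hT, pw_norm]; exact lt_one_of hs hβ
  have h3 := (Complex.hasSum_taylorSeries_neg_log' hαT).add
    (Complex.hasSum_taylorSeries_neg_log' hβT)
  have h4 : ∑' k, term V v (fun _ => 1) s k = -log (1 - α * T) + -log (1 - β * T) := by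
    rw [← h3.tsum_eq]
    refine tsum_congr fun k => ?_
    unfold term
    rw [powTrace_eq V v h1 h2, pw_pow, ← hT, mul_pow, mul_pow]
    ring
  have hα1 : 1 - α * T ≠ 0 := by
    intro h
    have : α * T = 1 := (sub_eq_zero.mp h).symm
    rw [this, norm_one] at hαT
    exact lt_irrefl _ hαT
  have hβ1 : 1 - β * T ≠ 0 := by
    intro h
    have : β * T = 1 := (sub_eq_zero.mp h).symm
    rw [this, norm_one] at hβT
    exact lt_irrefl _ hβT
  rw [h4, Complex.exp_add, Complex.exp_neg, Complex.exp_neg, Complex.exp_log hα1,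
    Complex.exp_log hβ1, ← mul_inv]
  congr 1
  have h5 : ((nm v : ℕ) : ℂ) ^ (1 - 2 * s) = (nm v : ℂ) * T ^ 2 := by
    rw [sub_eq_add_neg, Complex.cpow_add _ _ hq0, Complex.cpow_one, hT, ← Complex.cpow_nat_mul]
    congr 2
    push_cast; ring
  have h6 : eulerPoly V v s = 1 - (trace V v : ℂ) * T + 1 * ((nm v : ℕ) : ℂ) ^ (1 - 2 * s) := by
    unfold eulerPoly
    rw [if_neg hv]
    rfl
  rw [h6, h5, ← h1, ← h2]
  ring

/-- the complete Euler product -/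
lemma LSeries_eq (hS : ∀ v ∉ S, (V v).Δ ∉ v.asIdeal) {s : ℂ} (hs : 3 / 2 < s.re) :
    LSeries V s = (∏ v ∈ S, eulerPoly V v s)⁻¹ * LTwist V S Frob (fun _ => 1) s := by
  classical
  have h1 := (outer_summable hS (c := fun v k => (1 : ℂ)) (C := 1) (fun v k => by simp) hs).hasSum
  have h2 : HasProd (fun v : {v : HeightOneSpectrum (𝓞 K) // v ∉ S} => (eulerPoly V v.1 s)⁻¹)
      (LTwist V S Frob (fun _ => 1) s) := by
    have h3 := h1.cexp
    refine h3.congr_fun ?_ |> fun h => h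
    intro v
    exact (factor (hS v.1 v.2) hs).symm
  have h3 : HasProd (fun v : {v : HeightOneSpectrum (𝓞 K) // v ∈ S} => (eulerPoly V v.1 s)⁻¹)
      (∏ v ∈ S, eulerPoly V v s)⁻¹ := by
    have h4 := S.hasProd (fun v => (eulerPoly V v s)⁻¹)
    rw [Finset.prod_inv_distrib] at h4
    exact h4
  have h4 : HasProd (fun v => (eulerPoly V v s)⁻¹)
      ((∏ v ∈ S, eulerPoly V v s)⁻¹ * LTwist V S Frob (fun _ => 1) s) :=
    HasProd.mul_isCompl (s := (S : Set (HeightOneSpectrum (𝓞 K)))) isCompl_compl h3 h2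
  exact h4.tprod_eq

end

end Pool.Agent.E8helper84.EH
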