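import Mathlib
import Pool.Agent.E8helper84.EH.Core
import Pool.Agent.R389.Sol

/-!
# Real virtual characters of degree three
-/

set_option autoImplicit false
set_option linter.unusedSectionVars false

namespace Pool.Agent.E8helper84.EH

open Pool.Agent.H302R2 Pool.Agent.W446.AS Pool.Agent.H541R3.ART Pool.Agent.R389

/-- the product of the three eigenvalues -/
noncomputable def d3 {G : Type*} [Group G] (θ : G → ℂ) (g : G) : ℂ :=
  (θ g ^ 3 - 3 * θ g * θ (g ^ 2) + 2 * θ (g ^ 3)) / 6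

section

variable {E : Type*} [Group E] {θ : E → ℂ}

lemma d3_sum {α β γ : E →* ℂˣ}
    (h : ∀ e, θ e = ((α e : ℂˣ) : ℂ) + ((β e : ℂˣ) : ℂ) + ((γ e : ℂˣ) : ℂ)) (g : E) :
    d3 θ g = ((α g : ℂˣ) : ℂ) * ((β g : ℂˣ) : ℂ) * ((γ g : ℂˣ) : ℂ) := by
  unfold d3
  rw [h, h, h]
  simp only [map_pow, Units.val_pow_eq_pow_val]
  ring

lemma comm_three [Finite E] (hθ : IsHeilbronn θ) (hc : ∀ a b : E, a * b = b * a) (h1 : θ 1 = 3) :
    ∃ α β γ : E →* ℂˣ, ∀ e, θ e = ((α e : ℂˣ) : ℂ) + ((β e : ℂˣ) : ℂ) + ((γ e : ℂˣ) : ℂ) := by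
  obtain ⟨s, hs⟩ := hθ.comm_multiset hc
  have h2 := hs 1
  simp only [map_one, Units.val_one, Multiset.map_const', Multiset.sum_replicate, nsmul_eq_mul,
    mul_one] at h2
  rw [h1] at h2
  have h3 : Multiset.card s = 3 := by exact_mod_cast h2.symm
  obtain ⟨α, β, γ, rfl⟩ := Multiset.card_eq_three.mp h3
  refine ⟨α, β, γ, fun e => ?_⟩
  rw [hs e]
  simp only [Multiset.insert_eq_cons, Multiset.map_cons, Multiset.map_singleton,
    Multiset.sum_cons, Multiset.sum_singleton]
  ring

end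

section

variable {G : Type} [Group G] [Finite G] {θ : G → ℂ}

lemma IsSol.three_zp (hs : IsSol θ) (h1 : θ 1 = 3) (g : G) : ∃ a b c : ℂ, ‖a‖ = 1 ∧ ‖b‖ = 1 ∧
    ‖c‖ = 1 ∧ θ g = a + b + c ∧ d3 θ g = a * b * c := by
  obtain ⟨α, β, γ, h⟩ := comm_three (hs.zp g) (zpowers_comm g) (by simpa using h1)
  let x : Subgroup.zpowers g := ⟨g, Subgroup.mem_zpowers g⟩
  exact ⟨_, _, _, norm_char α x, norm_char β x, norm_char γ x, h x, d3_sum h x⟩

lemma IsSol.d3_mul (hs : IsSol θ) (h1 : θ 1 = 3) {x y : G} (hxy : x * y = y * x) :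
    d3 θ (x * y) = d3 θ x * d3 θ y := by
  obtain ⟨α, β, γ, h⟩ := comm_three (hs.cl hxy) (pair_comm hxy) (by simpa using h1)
  let X : Subgroup.closure ({x, y} : Set G) := ⟨x, Subgroup.subset_closure (by simp)⟩
  let Y : Subgroup.closure ({x, y} : Set G) := ⟨y, Subgroup.subset_closure (by simp)⟩
  have e1 : d3 θ (x * y) = _ := d3_sum h (X * Y)
  have e2 : d3 θ x = _ := d3_sum h X
  have e3 : d3 θ y = _ := d3_sum h Y
  rw [e1, e2, e3]
  simp only [map_mul, Units.val_mul]
  ring

lemma IsSol.d3_norm (hs : IsSol θ) (h1 : θ 1 = 3) (g : G) : ‖d3 θ g‖ = 1 := by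
  obtain ⟨a, b, c, ha, hb, hc, -, h⟩ := hs.three_zp h1 g
  rw [h, norm_mul, norm_mul, ha, hb, hc]; norm_num

lemma d3_one (h1 : θ 1 = 3) : d3 θ 1 = 1 := by
  unfold d3
  rw [one_pow, one_pow, h1]; norm_num

lemma IsSol.d3_conj (hs : IsSol θ) (g h : G) : d3 θ (h * g * h⁻¹) = d3 θ g := by
  unfold d3
  rw [hs.conj, conj_pow, hs.conj, conj_pow, hs.conj]

lemma IsSol.d3_pow (hs : IsSol θ) (h1 : θ 1 = 3) (g : G) (n : ℕ) : d3 θ (g ^ n) = d3 θ g ^ n := by
  induction n with
  | zero => simp [d3_one h1]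
  | succ n ih =>
    rw [pow_succ, pow_succ, ← ih]
    exact hs.d3_mul h1 ((Commute.refl g).pow_left n).eq

/-- for real functions the determinant is a sign -/
lemma IsSol.d3_sign (hs : IsSol θ) (h1 : θ 1 = 3) (hr : ∀ g, θ g⁻¹ = θ g) (g : G) :
    d3 θ g = 1 ∨ d3 θ g = -1 := by
  have hreal : ∀ g, (star (θ g) : ℂ) = θ g := fun g => by rw [← hs.inv_star, hr]
  have h2 : (star (d3 θ g) : ℂ) = d3 θ g := by
    unfold d3
    simp only [star_div₀, star_add, star_sub, star_mul', star_pow, hreal, star_ofNat]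
  have h3 : d3 θ g * star (d3 θ g) = 1 := by
    have := Complex.mul_conj (d3 θ g)
    rw [Complex.normSq_eq_norm_sq, hs.d3_norm h1] at this
    simpa using this
  rw [h2] at h3
  exact mul_self_eq_one_iff.mp h3

/-- a natural combination of irreducible characters is a Heilbronn function -/
lemma heil_of_nat (hv : Virt θ) {n : (G → ℂ) → ℕ} (hn : ∀ χ ∈ Irr G, pr θ χ = n χ) :
    IsHeilbronn θ := by
  classical
  refine ⟨fun g h => hv.conj g h, fun H ψ => ?_⟩
  have : Fintype H := Fintype.ofFinite H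
  choose! m hm using fun χ (hχ : χ ∈ Irr G) => exists_mult hχ H ψ
  refine ⟨∑ χ ∈ irrF G, n χ * m χ, ?_⟩
  rw [finsum_eq_sum_of_fintype]
  have h1 : ∀ h : H, θ h * (((ψ h)⁻¹ : ℂˣ) : ℂ)
      = ∑ χ ∈ irrF G, (n χ : ℂ) * (χ h * (((ψ h)⁻¹ : ℂˣ) : ℂ)) := by
    intro h
    rw [hv.expand (h : G), Finset.sum_mul]
    refine Finset.sum_congr rfl fun χ hχ => ?_
    rw [hn χ (mem_irrF.mp hχ)]; ring
  rw [Finset.sum_congr rfl (fun h _ => h1 h), Finset.sum_comm, Nat.cast_sum, Finset.sum_mul]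
  refine Finset.sum_congr rfl fun χ hχ => ?_
  rw [← Finset.mul_sum]
  have h2 := hm χ (mem_irrF.mp hχ)
  rw [finsum_eq_sum_of_fintype] at h2
  rw [h2]; push_cast; ring

/-- the determinant on `2`-groups -/
lemma d3_two_group {P : Type} [Group P] [Finite P] (hP : IsPGroup 2 P) {f : P → ℂ} (hv : Virt f)
    (hf : IsHeilbronn f) (h1 : f 1 = 3) (x y : P) : d3 f (x * y) = d3 f x * d3 f y := by
  classical
  have : Fintype P := Fintype.ofFinite P
  have hpr : ∀ χ ∈ Irr P, ∃ n : ℕ, pr f χ = n ∧ (∃ d : ℕ, χ 1 = ((2 ^ d : ℕ) : ℂ)) := by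
    intro χ hχ
    obtain ⟨K, ψ, rfl⟩ := (Hyper.of_pgroup Nat.prime_two hP).mono hχ
    have : Fintype K := Fintype.ofFinite K
    obtain ⟨n, hn⟩ := hf.mult K ψ
    refine ⟨n, ?_, ?_⟩
    · rw [frob' K _ (fun g x => hv.conj g x), pr_eq]
      rw [finsum_eq_sum_of_fintype] at hn
      have h2 : ∑ h : K, f h * (((ψ h⁻¹ : ℂˣ) : ℂ)) = n * Nat.card K := by
        rw [← hn]
        exact Finset.sum_congr rfl fun h _ => by rw [map_inv]
      rw [h2, mul_comm, mul_assoc, mul_inv_cancel₀ card_ne, mul_one]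
    · obtain ⟨k, hk⟩ := IsPGroup.iff_card.mp hP
      have hdvd : K.index ∣ 2 ^ k := by rw [← hk]; exact K.index_dvd_card
      obtain ⟨d, -, hd⟩ := (Nat.dvd_prime_pow Nat.prime_two).mp hdvd
      refine ⟨d, ?_⟩
      rw [← hd, ind_eq]
      have h3 : ∀ x : P, ext K (fun h => ((ψ h : ℂˣ) : ℂ)) (x⁻¹ * 1 * x) = 1 := by
        intro x
        have : x⁻¹ * 1 * x = ((1 : K) : P) := by simp
        rw [this, ext_coe, map_one]; rfl
      rw [Finset.sum_congr rfl (fun x _ => h3 x), Finset.sum_const, Finset.card_univ, nsmul_eq_mul,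
        mul_one, ← Nat.card_eq_fintype_card, ← K.card_mul_index]
      have h4 : (Nat.card K : ℂ) ≠ 0 := card_ne
      push_cast
      field_simp
  choose! n hn using hpr
  -- a linear constituent
  have hex : ∃ χ ∈ irrF P, n χ ≠ 0 ∧ χ 1 = 1 := by
    by_contra hcon
    push Not at hcon
    have h2 : ∀ χ ∈ irrF P, ∃ e : ℕ, pr f χ * χ 1 = 2 * (e : ℂ) := by
      intro χ hχ
      obtain ⟨h3, d, hd⟩ := hn χ (mem_irrF.mp hχ)
      by_cases h0 : n χ = 0
      · exact ⟨0, by rw [h3, h0]; simp⟩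
      · have h4 := hcon χ hχ h0
        rcases Nat.eq_zero_or_pos d with hd0 | hdpos
        · exfalso
          apply h4
          rw [hd, hd0]; simp
        · obtain ⟨e, rfl⟩ := Nat.exists_eq_succ_of_ne_zero hdpos.ne'
          refine ⟨n χ * 2 ^ e, ?_⟩
          rw [h3, hd]
          push_cast
          rw [pow_succ]; ring
    choose! e he using h2
    have h3 := hv.expand 1
    rw [h1, Finset.sum_congr rfl (fun χ hχ => he χ hχ), ← Finset.mul_sum] at h3
    have h4 : 3 = 2 * ∑ χ ∈ irrF P, e χ := by exact_mod_cast h3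
    omega
  obtain ⟨lam, hlam, hn0, hlam1⟩ := hex
  have hlamI := mem_irrF.mp hlam
  obtain ⟨l, hl⟩ := (irr_heilbronn hlamI).deg_one hlam1
  set σ : P → ℂ := f - lam with hσ
  have hσv : Virt σ := sub_mem (S := AddSubgroup (P → ℂ)) hv (AddSubgroup.subset_closure hlamI)
  have hσh : IsHeilbronn σ := by
    refine heil_of_nat hσv (n := fun χ => if χ = lam then n χ - 1 else n χ) ?_
    intro χ hχ
    have h5 : pr σ χ = pr f χ - pr lam χ := by
      rw [hσ, sub_eq_add_neg, pr_add, pr_neg, ← sub_eq_add_neg]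
    rw [h5, (hn χ hχ).1]
    split_ifs with h6
    · subst h6
      rw [pr_self hχ]
      obtain ⟨m, hm⟩ := Nat.exists_eq_succ_of_ne_zero hn0
      rw [hm]; push_cast; simp
    · rw [pr_ne hlamI hχ (fun h => h6 h.symm), sub_zero]
  have hσ1 : σ 1 = 2 := by
    rw [hσ, Pi.sub_apply, h1, hlam1]; norm_num
  obtain ⟨D, hD⟩ := hσh.exists_det hσ1
  have key : ∀ g, d3 f g = ((l g : ℂˣ) : ℂ) * ((D g : ℂˣ) : ℂ) := by
    intro g
    obtain ⟨a, b, -, -, hp, hs, hpow⟩ := hσh.two_eig hσ1 g
    have e1 : f g = ((l g : ℂˣ) : ℂ) + (a + b) := by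
      have : f g = lam g + σ g := by rw [hσ, Pi.sub_apply]; ring
      rw [this, hl, hs]
    have e2 : f (g ^ 2) = ((l g : ℂˣ) : ℂ) ^ 2 + (a ^ 2 + b ^ 2) := by
      have : f (g ^ 2) = lam (g ^ 2) + σ (g ^ 2) := by rw [hσ, Pi.sub_apply]; ring
      have h7 := hpow 2
      norm_cast at h7
      rw [this, hl, h7, map_pow, Units.val_pow_eq_pow_val]
    have e3 : f (g ^ 3) = ((l g : ℂˣ) : ℂ) ^ 3 + (a ^ 3 + b ^ 3) := by
      have : f (g ^ 3) = lam (g ^ 3) + σ (g ^ 3) := by rw [hσ, Pi.sub_apply]; ring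
      have h7 := hpow 3
      norm_cast at h7
      rw [this, hl, h7, map_pow, Units.val_pow_eq_pow_val]
    unfold d3
    rw [e1, e2, e3, hD, hp]
    ring
  rw [key, key, key, map_mul, map_mul]
  push_cast
  ring

/-- The determinant of a real function of degree three is a quadratic character. -/
theorem exists_det3 (hv : Virt θ) (hs : IsSol θ) (h1 : θ 1 = 3) (hr : ∀ g, θ g⁻¹ = θ g) :
    ∃ D : G →* ℂˣ, ∀ g, ((D g : ℂˣ) : ℂ) = d3 θ g := by
  have hne : ∀ g, d3 θ g ≠ 0 := fun g => by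
    rw [← norm_ne_zero_iff, hs.d3_norm h1]; norm_num
  let f : G → ℂˣ := fun g => Units.mk0 (d3 θ g) (hne g)
  have hf : ∀ g h, f (g * h) = f g * f h := by
    apply mul_of_pgroups
    · intro g h
      apply Units.ext
      exact hs.d3_conj g h
    · intro g n
      apply Units.ext
      rw [Units.val_pow_eq_pow_val]
      exact hs.d3_pow h1 g n
    · intro p hp P hP x hx y hy
      have : Fact p.Prime := ⟨hp⟩
      apply Units.ext
      rcases hp.eq_two_or_odd' with rfl | hodd
      · have hsol : Group.IsSolvable P := by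
          have : Group.IsNilpotent P := hP.isNilpotent
          infer_instance
        have h2 := d3_two_group hP (hv.comp P.subtype) ((hs.res P).heil hsol)
          (by simpa using h1) ⟨x, hx⟩ ⟨y, hy⟩
        exact h2
      · have h2 : ∀ z ∈ P, d3 θ z = 1 := by
          intro z hz
          obtain ⟨k, hk⟩ := hP ⟨z, hz⟩
          have hk2 : z ^ p ^ k = 1 := congrArg Subtype.val hk
          have h3 := hs.d3_pow h1 z (p ^ k)
          rw [hk2, d3_one h1] at h3
          rcases hs.d3_sign h1 hr z with h4 | h4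
          · exact h4
          · rw [h4, (hodd.pow).neg_one_pow] at h3
            norm_num at h3
        change d3 θ (x * y) = d3 θ x * d3 θ y
        rw [h2 _ (P.mul_mem hx hy), h2 x hx, h2 y hy, mul_one]
  refine ⟨{ toFun := f, map_one' := ?_, map_mul' := hf }, fun g => rfl⟩
  apply Units.ext
  exact d3_one h1

/-- real functions of degree three and determinant one are at least `-1` -/
lemma re_ge (hs : IsSol θ) (h1 : θ 1 = 3) (hr : ∀ g, θ g⁻¹ = θ g) {g : G} (hd : d3 θ g = 1) :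
    -1 ≤ (θ g).re := by
  obtain ⟨a, b, c, ha, hb, hc, hsum, hdet⟩ := hs.three_zp h1 g
  rw [hdet] at hd
  have hreal : (star (θ g) : ℂ) = θ g := by rw [← hs.inv_star, hr]
  have hna : a * star a = 1 := by
    have := Complex.mul_conj a
    rw [Complex.normSq_eq_norm_sq, ha] at this
    simpa using this
  have hnb : b * star b = 1 := by
    have := Complex.mul_conj b
    rw [Complex.normSq_eq_norm_sq, hb] at this
    simpa using this
  have hnc : c * star c = 1 := by
    have := Complex.mul_conj c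
    rw [Complex.normSq_eq_norm_sq, hc] at this
    simpa using this
  have he2 : a * b + b * c + c * a = a + b + c := by
    have h2 : (star (a + b + c) : ℂ) = a + b + c := by rw [← hsum]; exact hreal
    rw [star_add, star_add] at h2
    rw [← h2]
    -- `ab = star c` etc.
    have e1 : a * b = star c := by
      have : a * b * (c * star c) = star c := by
        rw [← mul_assoc, hd, one_mul]
      rwa [hnc, mul_one] at this
    have e2 : b * c = star a := by
      have : (b * c) * (a * star a) = star a := by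
        rw [← mul_assoc, show b * c * a = a * b * c by ring, hd, one_mul]
      rwa [hna, mul_one] at this
    have e3 : c * a = star b := by
      have : (c * a) * (b * star b) = star b := by
        rw [← mul_assoc, show c * a * b = a * b * c by ring, hd, one_mul]
      rwa [hnb, mul_one] at this
    rw [e1, e2, e3]; ring
  have hprod : (1 - a) * (1 - b) * (1 - c) = 0 := by
    have : (1 - a) * (1 - b) * (1 - c) = 1 - (a + b + c) + (a * b + b * c + c * a) - a * b * c := by
      ring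
    rw [this, he2, hd]; ring
  have hre : ∀ z w : ℂ, ‖z‖ = 1 → ‖w‖ = 1 → z * w = 1 → -1 ≤ (1 + z + w).re := by
    intro z w hz hw hzw
    have h3 : w = star z := by
      have h4 : z * star z = 1 := by
        have := Complex.mul_conj z
        rw [Complex.normSq_eq_norm_sq, hz] at this
        simpa using this
      have hz0 : z ≠ 0 := by rw [← norm_ne_zero_iff, hz]; norm_num
      exact mul_left_cancel₀ hz0 (hzw.trans h4.symm)
    have h5 : (1 + z + w).re = 1 + 2 * z.re := by
      rw [h3]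
      simp
      ring
    rw [h5]
    have h6 := neg_le_of_abs_le ((Complex.abs_re_le_norm z).trans hz.le)
    linarith
  rw [hsum]
  rcases mul_eq_zero.mp hprod with h | h
  · rcases mul_eq_zero.mp h with h | h
    · have ha1 : a = 1 := (sub_eq_zero.mp h).symm
      rw [ha1, one_mul] at hd
      rw [ha1]
      exact hre b c hb hc hd
    · have hb1 : b = 1 := (sub_eq_zero.mp h).symm
      rw [hb1, mul_one] at hd
      have := hre a c ha hc hd
      rw [hb1]
      have e : a + 1 + c = 1 + a + c := by ring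
      rw [e]; exact this
  · have hc1 : c = 1 := (sub_eq_zero.mp h).symm
    rw [hc1, mul_one] at hd
    have := hre a b ha hb hd
    rw [hc1]
    have e : a + b + 1 = 1 + a + b := by ring
    rw [e]; exact this

lemma real_aux (hs : IsSol θ) (h1 : θ 1 = 3) (hr : ∀ g, θ g⁻¹ = θ g) {D : G →* ℂˣ}
    (hD : ∀ g, ((D g : ℂˣ) : ℂ) = d3 θ g) {k : ℤ}
    (hk : ∑ᶠ g : G, θ g * (((D g)⁻¹ : ℂˣ) : ℂ) = k * Nat.card G) : 0 ≤ k := by
  classical
  have : Fintype G := Fintype.ofFinite G
  have hDs : ∀ g, D g = 1 ∨ D g = -1 := by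
    intro g
    rcases hs.d3_sign h1 hr g with h | h
    · left; apply Units.ext; rw [hD, h]; rfl
    · right; apply Units.ext; rw [hD, h]; simp
  have hDi : ∀ g, (D g)⁻¹ = D g := by
    intro g
    rcases hDs g with h | h
    · rw [h, inv_one]
    · rw [h]; simp
  set η : G → ℂ := fun g => θ g * (((D g)⁻¹ : ℂˣ) : ℂ) with hη
  have hηs : IsSol η := hs.twist D
  have hη1 : η 1 = 3 := by simp [hη, h1]
  have hηr : ∀ g, η g⁻¹ = η g := by
    intro g
    simp only [hη]
    rw [hr, map_inv, inv_inv, hDi]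
  have hηd : ∀ g, d3 η g = 1 := by
    intro g
    have h2 : ((D g : ℂˣ) : ℂ) ^ 2 = 1 := by
      rcases hDs g with h | h
      · rw [h]; simp
      · rw [h]; simp
    have h3 : d3 η g = ((D g : ℂˣ) : ℂ) ^ 3 * d3 θ g := by
      unfold d3
      simp only [hη, hDi, map_pow, Units.val_pow_eq_pow_val]
      ring
    rw [h3, ← hD]
    calc ((D g : ℂˣ) : ℂ) ^ 3 * ((D g : ℂˣ) : ℂ) = (((D g : ℂˣ) : ℂ) ^ 2) ^ 2 := by ring
      _ = 1 := by rw [h2, one_pow]
  have hge : ∀ g, -1 ≤ (η g).re := fun g => re_ge hηs hη1 hηr (hηd g)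
  rw [finsum_eq_sum_of_fintype] at hk
  have h3 : ∑ g : G, ((η g).re + 1) = (k + 1) * Nat.card G := by
    have h4 := congrArg Complex.re hk
    rw [Complex.re_sum] at h4
    rw [Finset.sum_add_distrib, h4, Finset.sum_const, Finset.card_univ, nsmul_eq_mul,
      ← Nat.card_eq_fintype_card]
    simp
    ring
  have h4 : (4 : ℝ) ≤ ∑ g : G, ((η g).re + 1) := by
    have h5 := Finset.single_le_sum (f := fun g : G => (η g).re + 1)
      (fun g _ => by have := hge g; linarith) (Finset.mem_univ 1)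
    refine le_trans ?_ h5
    simp only [hη1]
    have h6 : (3 : ℂ).re = 3 := rfl
    rw [h6]; norm_num
  rw [h3] at h4
  have h5 : (0 : ℝ) < Nat.card G := by exact_mod_cast Nat.card_pos
  by_contra hlt
  have h6 : (k : ℝ) + 1 ≤ 0 := by
    have : k ≤ -1 := by omega
    have : (k : ℝ) ≤ -1 := by exact_mod_cast this
    linarith
  nlinarith

/-- **Real virtual characters of degree three.** There is a character `D` with values `±1` whose
multiplicities in the restrictions to all subgroups are nonnegative. -/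
theorem real_three (hv : Virt θ) (hs : IsSol θ) (h1 : θ 1 = 3) (hr : ∀ g, θ g⁻¹ = θ g) :
    ∃ D : G →* ℂˣ, (∀ g, D g = 1 ∨ D g = -1) ∧ ∀ (H : Subgroup G) (k : ℤ),
      ∑ᶠ g : H, θ g * (((D g)⁻¹ : ℂˣ) : ℂ) = k * Nat.card H → 0 ≤ k := by
  obtain ⟨D, hD⟩ := exists_det3 hv hs h1 hr
  refine ⟨D, fun g => ?_, fun H k hk => ?_⟩
  · rcases hs.d3_sign h1 hr g with h | h
    · left; apply Units.ext; rw [hD, h]; rfl
    · right; apply Units.ext; rw [hD, h]; simp
  · exact real_aux (hs.res H) (by simpa using h1) (fun g => hr g) (D := D.comp H.subtype)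
      (fun g => hD g) hk

end

end Pool.Agent.E8helper84.EH
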