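import Mathlib
import Pool.Agent.E8helper84.EH.An
import Pool.Agent.E8helper84.EH.LS
import Pool.Agent.E8helper84.EH.Real
import Pool.Agent.E8helper84.EH.Conj

/-!
# Real points, and the L-series itself
-/

set_option autoImplicit false
set_option linter.unusedSectionVars false

namespace Pool.Agent.E8helper84.EH

open Pool.Agent.H302R2 Pool.Agent.W446.AS Pool.Agent.H541R3.ART Pool.Agent.R389 Filter Topology
open scoped ComplexConjugate

section

variable {G : Type} [Group G] [Finite G] {L : (G → ℂ) → ℂ → ℂ}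

lemma inv_virt {χ : G → ℂ} (hχ : Virt χ) : Virt (fun g => χ g⁻¹) := by
  unfold Virt at hχ ⊢
  induction hχ using AddSubgroup.closure_induction with
  | mem χ hχ =>
    obtain ⟨n, ρ, -, rfl⟩ := hχ
    have h1 := char_mem _ ρ.dual rfl
    have h2 : (fun g => ρ.character g⁻¹) = ρ.dual.character := by
      funext g
      rw [Representation.char_dual]
    rw [h2]
    exact h1
  | zero => exact zero_mem (AddSubgroup.closure (Irr G))
  | add a b _ _ ha hb => exact add_mem (S := AddSubgroup (G → ℂ)) ha hb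
  | neg a _ ha => exact neg_mem (S := AddSubgroup (G → ℂ)) ha

lemma virt_star {χ : G → ℂ} (hχ : Virt χ) (g : G) : χ g⁻¹ = conj (χ g) := by
  unfold Virt at hχ
  induction hχ using AddSubgroup.closure_induction with
  | mem χ hχ =>
    exact heil_star (irr_heilbronn hχ) g
  | zero => simp
  | add a b _ _ ha hb => rw [Pi.add_apply, Pi.add_apply, ha, hb, map_add]
  | neg a _ ha => rw [Pi.neg_apply, Pi.neg_apply, ha, map_neg]

lemma cont_conj (hc : ∀ (a : G → ℂ) (s : ℂ), L (fun g => conj (a g)) (conj s) = conj (L a s))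
    {a : G → ℂ} {Λ : ℂ → ℂ} (h : Cont (L a) Λ) : Cont (L (fun g => conj (a g))) (CC.cc Λ) := by
  refine ⟨fun s => ?_, fun s hs => ?_⟩
  · have h1 := CC.meromorphicAt_cc (h.1 (conj s))
    rwa [Complex.conj_conj] at h1
  · have h1 := hc a (conj s)
    rw [Complex.conj_conj] at h1
    rw [h1, CC.cc, h.2 _ (by rwa [Complex.conj_re])]

lemma ordd_conj (F : Fam G L)
    (hc : ∀ (a : G → ℂ) (s : ℂ), L (fun g => conj (a g)) (conj s) = conj (L a s))
    {a : G → ℂ} (ha : ∃ Λ, Cont (L a) Λ) {s₀ : ℂ} (hs : s₀.im = 0) :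
    ordd L s₀ (fun g => conj (a g)) = ordd L s₀ a := by
  obtain ⟨Λ, h⟩ := ha
  have h1 := ordd_eq F (cont_conj hc h) s₀
  have h2 := CC.order_cc (h.1 s₀) (ordd_eq F h s₀)
  rw [Complex.conj_eq_iff_im.mpr hs, h1] at h2
  exact_mod_cast h2

/-- at real points the virtual character of the orders is real -/
lemma th_real (F : Fam G L) (hE : Entire G L)
    (hc : ∀ (a : G → ℂ) (s : ℂ), L (fun g => conj (a g)) (conj s) = conj (L a s))
    {s₀ : ℂ} (hs : s₀.im = 0) (g : G) : th G L s₀ g⁻¹ = th G L s₀ g := by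
  classical
  have : Fintype G := Fintype.ofFinite G
  have hv := th_virt (G := G) (L := L) s₀
  have hv' := inv_virt hv
  have h1 := hv'.expand g
  have h2 := hv.expand g
  change th G L s₀ g⁻¹ = _ at h1
  rw [h1, h2]
  refine Finset.sum_congr rfl fun χ hχ => ?_
  congr 1
  have hχ' : Virt χ := AddSubgroup.subset_closure (mem_irrF.mp hχ)
  have h3 : pr (fun g => th G L s₀ g⁻¹) χ = pr (th G L s₀) (fun g => χ g⁻¹) := by
    rw [pr_eq, pr_eq]
    congr 1
    rw [← Equiv.sum_comp (Equiv.inv G)]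
    refine Finset.sum_congr rfl fun x _ => ?_
    simp
  rw [h3, pr_th F hE s₀ (inv_virt hχ'), pr_th F hE s₀ hχ']
  have h4 : (fun g => χ g⁻¹) = fun g => conj (χ g) := funext fun g => virt_star hχ' g
  rw [h4, ordd_conj F hc (virt_cont F hE hχ') hs]

/-- **Real virtual characters of degree three**, with the bound for all linear characters. -/
theorem real_three' {θ : G → ℂ} (hv : Virt θ) (hs : IsSol θ) (h1 : θ 1 = 3)
    (hr : ∀ g, θ g⁻¹ = θ g) :
    ∃ D : G →* ℂˣ, (∀ g, D g = 1 ∨ D g = -1) ∧ (∀ (H : Subgroup G) (k : ℤ),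
      ∑ᶠ g : H, θ g * (((D g)⁻¹ : ℂˣ) : ℂ) = k * Nat.card H → 0 ≤ k) ∧
      ∀ (H : Subgroup G) (ψ : H →* ℂˣ) (k : ℤ),
      ∑ᶠ g : H, θ g * (((ψ g)⁻¹ : ℂˣ) : ℂ) = k * Nat.card H → -1 ≤ k := by
  classical
  obtain ⟨D, hD⟩ := exists_det3 hv hs h1 hr
  have hDs : ∀ g, D g = 1 ∨ D g = -1 := by
    intro g
    rcases hs.d3_sign h1 hr g with h | h
    · left; apply Units.ext; rw [hD, h]; rfl
    · right; apply Units.ext; rw [hD, h]; simp
  have hDi : ∀ g, (D g)⁻¹ = D g := by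
    intro g
    rcases hDs g with h | h
    · rw [h, inv_one]
    · rw [h]; simp
  have hres : ∀ (H : Subgroup G) (k : ℤ),
      ∑ᶠ g : H, θ g * (((D g)⁻¹ : ℂˣ) : ℂ) = k * Nat.card H → 0 ≤ k := by
    intro H k hk
    exact real_aux (hs.res H) (by simpa using h1) (fun g => hr g) (D := D.comp H.subtype)
      (fun g => hD g) hk
  refine ⟨D, hDs, hres, fun H ψ k hk => ?_⟩
  by_cases hψ : ψ = D.comp H.subtype
  · subst hψ
    have := hres H k hk
    omega
  have : Fintype H := Fintype.ofFinite H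
  set η : G → ℂ := fun g => θ g * (((D g)⁻¹ : ℂˣ) : ℂ) with hη
  have hηs : IsSol η := hs.twist D
  have hη1 : η 1 = 3 := by simp [hη, h1]
  have hηr : ∀ g, η g⁻¹ = η g := by
    intro g
    simp only [hη]
    rw [hr, map_inv, inv_inv, hDi]
  have hηd : ∀ g, d3 η g = 1 := by
    intro g
    have h2 : ((D g : ℂˣ) : ℂ) ^ 2 = 1 := by
      rcases hDs g with h | h
      · rw [h]; simp
      · rw [h]; simp
    have h3 : d3 η g = ((D g : ℂˣ) : ℂ) ^ 3 * d3 θ g := by
      unfold d3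
      simp only [hη, hDi, map_pow, Units.val_pow_eq_pow_val]
      ring
    rw [h3, ← hD]
    calc ((D g : ℂˣ) : ℂ) ^ 3 * ((D g : ℂˣ) : ℂ) = (((D g : ℂˣ) : ℂ) ^ 2) ^ 2 := by ring
      _ = 1 := by rw [h2, one_pow]
  have hge : ∀ g, -1 ≤ (η g).re := fun g => re_ge hηs hη1 hηr (hηd g)
  have hreal : ∀ g, η g = ((η g).re : ℂ) := by
    intro g
    have h2 : (star (η g) : ℂ) = η g := by rw [← hηs.inv_star, hηr]
    have h3 : conj (η g) = η g := h2
    exact (Complex.conj_eq_iff_re.mp h3).symm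
  have hle : ∀ g, ‖η g - 1‖ ≤ 2 := by
    intro g
    have h2 := hηs.norm_le g
    rw [hη1] at h2
    have h3 : ((3 : ℂ)).re = 3 := rfl
    rw [h3] at h2
    have h4 := Complex.re_le_norm (η g)
    have h5 := hge g
    rw [hreal g]
    have h6 : ((η g).re : ℂ) - 1 = (((η g).re - 1 : ℝ) : ℂ) := by push_cast; rfl
    rw [h6, Complex.norm_real, Real.norm_eq_abs, abs_le]
    constructor <;> linarith
  set μ : H →* ℂˣ := ψ * (D.comp H.subtype)⁻¹ with hμ
  have hμ1 : μ⁻¹ ≠ 1 := by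
    intro h
    apply hψ
    ext g
    have h2 := DFunLike.congr_fun h g
    rw [MonoidHom.inv_apply, MonoidHom.one_apply, hμ, MonoidHom.mul_apply, MonoidHom.inv_apply,
      inv_eq_one, mul_inv_eq_one] at h2
    rw [h2]
  have h2 := finsum_char_eq_zero μ⁻¹ hμ1
  rw [finsum_eq_sum_of_fintype] at h2 hk
  have h3 : ∑ g : H, (η g - 1) * (((μ⁻¹ g : ℂˣ)) : ℂ) = k * Nat.card H := by
    rw [← hk]
    simp only [sub_mul, one_mul, Finset.sum_sub_distrib]
    rw [h2, sub_zero]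
    refine Finset.sum_congr rfl fun g _ => ?_
    have h4 : (((D (g : G))⁻¹ : ℂˣ) : ℂ) * (((μ⁻¹ g : ℂˣ)) : ℂ) = (((ψ g)⁻¹ : ℂˣ) : ℂ) := by
      rw [← Units.val_mul]
      congr 1
      rw [hμ]
      simp [MonoidHom.mul_apply, MonoidHom.inv_apply]
    simp only [hη]
    rw [mul_assoc, h4]
  have h5 : ∑ g : H, (((η g - 1) * (((μ⁻¹ g : ℂˣ)) : ℂ)).re + 2) = (k + 2) * Nat.card H := by
    have h4 := congrArg Complex.re h3
    rw [Complex.re_sum] at h4
    rw [Finset.sum_add_distrib, h4, Finset.sum_const, Finset.card_univ, nsmul_eq_mul,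
      ← Nat.card_eq_fintype_card]
    simp
    ring
  have h6 : (4 : ℝ) ≤ ∑ g : H, (((η g - 1) * (((μ⁻¹ g : ℂˣ)) : ℂ)).re + 2) := by
    have h5 := Finset.single_le_sum
      (f := fun g : H => ((η g - 1) * (((μ⁻¹ g : ℂˣ)) : ℂ)).re + 2)
      (fun g _ => by
        have h7 : ‖(η g - 1) * (((μ⁻¹ g : ℂˣ)) : ℂ)‖ ≤ 2 := by
          rw [norm_mul, norm_char, mul_one]
          exact hle g
        have h8 := (abs_le.mp ((Complex.abs_re_le_norm _).trans h7)).1
        change 0 ≤ _ + (2 : ℝ)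
        linarith) (Finset.mem_univ 1)
    refine le_trans ?_ h5
    simp only [Subgroup.coe_one, hη1, map_one, Units.val_one, mul_one]
    norm_num
  rw [h5] at h6
  have h7 : (0 : ℝ) < Nat.card H := by exact_mod_cast Nat.card_pos
  by_contra hlt
  have h8 : (k : ℝ) + 2 ≤ 0 := by
    have : k ≤ -2 := by omega
    have : (k : ℝ) ≤ -2 := by exact_mod_cast this
    linarith
  nlinarith

/-- **Real zeros of order at most three.** -/
theorem real_points (F : Fam G L) (hE : Entire G L)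
    (hc : ∀ (a : G → ℂ) (s : ℂ), L (fun g => conj (a g)) (conj s) = conj (L a s))
    {s₀ : ℂ} (hs : s₀.im = 0) {Z : ℂ → ℂ}
    (hZ : Cont (L (ind (⊥ : Subgroup G) (fun _ => 1))) Z) (h3 : meromorphicOrderAt Z s₀ ≤ 3) :
    (∃ D : G →* ℂˣ, (∀ g, D g = 1 ∨ D g = -1) ∧ ∀ H : Subgroup G,
      0 ≤ ordd L s₀ (ind H (fun h => ((D h : ℂˣ) : ℂ)))) ∧
    ∀ (H : Subgroup G) (ψ : H →* ℂˣ), -1 ≤ ordd L s₀ (ind H (fun h => ((ψ h : ℂˣ) : ℂ))) := by
  classical
  obtain ⟨r, hr⟩ := (th_sol F hE s₀).exists_deg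
  have h4 := th_one F hE s₀
  rw [hr] at h4
  have h5 : ordd L s₀ (ind (⊥ : Subgroup G) (fun _ => 1)) = (r : ℤ) := by exact_mod_cast h4.symm
  have h6 : r ≤ 3 := by
    rw [ordd_eq F hZ s₀, h5] at h3
    have : ((r : ℤ) : WithTop ℤ) ≤ ((3 : ℤ) : WithTop ℤ) := h3
    exact_mod_cast this
  by_cases h7 : r ≤ 2
  · have h8 : meromorphicOrderAt Z s₀ ≤ 2 := by
      rw [ordd_eq F hZ s₀, h5]
      have : ((r : ℤ) : WithTop ℤ) ≤ ((2 : ℤ) : WithTop ℤ) := by exact_mod_cast h7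
      exact this
    have h9 := ordd_nonneg F hE hZ h8
    refine ⟨⟨1, fun g => Or.inl rfl, fun H => ?_⟩, fun H ψ => ?_⟩
    · simpa using h9 H 1
    · have := h9 H ψ
      omega
  · have h8 : r = 3 := by omega
    subst h8
    obtain ⟨D, hD, hD2, hD3⟩ := real_three' (th_virt s₀) (th_sol F hE s₀) (by simpa using hr)
      (th_real F hE hc hs)
    refine ⟨⟨D, hD, fun H => ?_⟩, fun H ψ => ?_⟩
    · apply hD2 H
      exact th_mult F hE s₀ H (D.comp H.subtype)
    · apply hD3 H ψ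
      exact th_mult F hE s₀ H ψ

end

section

open NumberField IsDedekindDomain
open Pool.Agent.H921R2.TatePole (nm two_le_nm nm_summable)

variable {K : Type} [Field K] [NumberField K] {F : Type} [Field F] [NumberField F] [Algebra K F]
variable {V : HeightOneSpectrum (𝓞 K) → WeierstrassCurve (𝓞 K)}
  {S : Finset (HeightOneSpectrum (𝓞 K))} {Frob : HeightOneSpectrum (𝓞 K) → (F ≃ₐ[K] F)}

lemma LTwist_conj (χ : (F ≃ₐ[K] F) → ℂ) (s : ℂ) :
    LTwist V S Frob (fun g => conj (χ g)) (conj s) = conj (LTwist V S Frob χ s) := by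
  unfold LTwist
  rw [← Complex.exp_conj, Complex.conj_tsum]
  congr 1
  refine tsum_congr fun v => ?_
  rw [Complex.conj_tsum]
  refine tsum_congr fun k => ?_
  have h1 : ((Ideal.absNorm v.1.asIdeal : ℕ) : ℂ) ^ (-(((k : ℂ) + 1) * conj s))
      = conj (((Ideal.absNorm v.1.asIdeal : ℕ) : ℂ) ^ (-(((k : ℂ) + 1) * s))) := by
    have h2 := Complex.cpow_conj ((Ideal.absNorm v.1.asIdeal : ℕ) : ℂ) (-(((k : ℂ) + 1) * s)) (by
      rw [Complex.natCast_arg]; exact Real.pi_pos.ne)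
    rw [Complex.conj_natCast] at h2
    rw [← h2]
    congr 1
    simp
  rw [h1]
  simp

lemma eulerPoly_ne (v : HeightOneSpectrum (𝓞 K)) {s : ℂ} (hs : 3 / 2 < s.re) :
    eulerPoly V v s ≠ 0 := by
  by_cases hv : (V v).Δ ∈ v.asIdeal
  · unfold eulerPoly
    rw [if_pos hv, zero_mul, add_zero]
    intro h
    have h1 : (trace V v : ℂ) * ((Ideal.absNorm v.asIdeal : ℕ) : ℂ) ^ (-s) = 1 :=
      (sub_eq_zero.mp h).symm
    have h2 := congrArg norm h1
    have h3 : ‖((Ideal.absNorm v.asIdeal : ℕ) : ℂ) ^ (-s)‖ = (nm v : ℝ) ^ (-s.re) := pw_norm v s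
    rw [norm_mul, norm_one, h3, Complex.norm_intCast] at h2
    have hq : (1 : ℝ) < nm v := by
      have := two_le_nm v
      exact_mod_cast (by omega : 1 < nm v)
    have hq0 : (0 : ℝ) < nm v := by linarith
    have h4 : |(trace V v : ℝ)| * (nm v : ℝ) ^ (-s.re) ≤ nm v * (nm v : ℝ) ^ (-s.re) :=
      mul_le_mul_of_nonneg_right (trace_le V v) (Real.rpow_nonneg hq0.le _)
    have h5 : (nm v : ℝ) * (nm v : ℝ) ^ (-s.re) < 1 := by
      have h6 : (nm v : ℝ) * (nm v : ℝ) ^ (-s.re) = (nm v : ℝ) ^ (1 + -s.re) := by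
        rw [Real.rpow_add hq0, Real.rpow_one]
      rw [h6]
      exact Real.rpow_lt_one_of_one_lt_of_neg hq (by linarith)
    linarith
  · have h1 := factor hv hs
    intro h
    rw [h, inv_zero] at h1
    exact Complex.exp_ne_zero _ h1

lemma eulerPoly_diff (v : HeightOneSpectrum (𝓞 K)) : Differentiable ℂ (eulerPoly V v) := by
  have hq : ((Ideal.absNorm v.asIdeal : ℕ) : ℂ) ≠ 0 := by
    have := two_le_nm v
    have h2 : nm v ≠ 0 := by omega
    exact_mod_cast h2
  unfold eulerPoly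
  refine Differentiable.add (Differentiable.sub (differentiable_const _) ?_) ?_
  · refine (differentiable_const _).mul ?_
    intro s
    exact (differentiableAt_id.neg).const_cpow (Or.inl hq)
  · refine (differentiable_const _).mul ?_
    intro s
    exact ((differentiableAt_const _).sub ((differentiableAt_const _).mul differentiableAt_id)).const_cpow
      (Or.inl hq)

/-- the continuation of the L-series of the curve -/
lemma cont_LSeries (hS : ∀ v ∉ S, (V v).Δ ∉ v.asIdeal) {Λ : ℂ → ℂ}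
    (h : Cont (LTwist V S Frob (fun _ => 1)) Λ) :
    ∃ Λ' : ℂ → ℂ, Cont (LSeries V) Λ' ∧ ∀ s₀, meromorphicOrderAt
      (fun s => (∏ v ∈ S, eulerPoly V v s) * Λ' s) s₀ = meromorphicOrderAt Λ s₀ := by
  classical
  set P : ℂ → ℂ := fun s => ∏ v ∈ S, eulerPoly V v s with hP
  have hPd : Differentiable ℂ P := by
    have : P = ∏ v ∈ S, eulerPoly V v := by
      funext s; simp [hP]
    intro s
    rw [hP]
    exact DifferentiableAt.fun_finsetProd fun v _ => eulerPoly_diff v s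
  have hPm : Meromorphic P := fun s => (hPd.analyticAt s).meromorphicAt
  have hP0 : ∀ s : ℂ, 3 / 2 < s.re → P s ≠ 0 := fun s hs =>
    Finset.prod_ne_zero_iff.mpr fun v _ => eulerPoly_ne v hs
  have hPt : ∀ s₀, meromorphicOrderAt P s₀ ≠ ⊤ := fun s₀ =>
    Cont.ne_top (f := P) ⟨hPm, fun _ _ => rfl⟩ hP0 s₀
  refine ⟨P⁻¹ * Λ, ⟨fun s => (hPm s).inv.mul (h.1 s), fun s hs => ?_⟩, fun s₀ => ?_⟩
  · rw [Pi.mul_apply, Pi.inv_apply, h.2 s hs, LSeries_eq (Frob := Frob) hS hs]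
  · have h1 : (fun s => P s * (P⁻¹ * Λ) s) = P * (P⁻¹ * Λ) := rfl
    rw [h1, meromorphicOrderAt_mul (hPm s₀) ((hPm s₀).inv.mul (h.1 s₀)),
      meromorphicOrderAt_mul (hPm s₀).inv (h.1 s₀), meromorphicOrderAt_inv, ← add_assoc]
    have h2 : meromorphicOrderAt P s₀ + -meromorphicOrderAt P s₀ = 0 := by
      obtain ⟨n, hn⟩ := WithTop.ne_top_iff_exists.mp (hPt s₀)
      rw [← hn]
      have : ((n : ℤ) : WithTop ℤ) + -((n : ℤ) : WithTop ℤ) = ((n + -n : ℤ) : WithTop ℤ) := rfl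
      rw [this, add_neg_cancel]; rfl
    rw [h2, zero_add]

end

end Pool.Agent.E8helper84.EH
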