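import Mathlib
import Pool.Agent.E8helper84.EH.Final
import Pool.Agent.E8helper13.Par.Main

/-!
# Multiplicities of all irreducible characters

In degree two this is the theorem of helper13 (`Pool.Agent.E8helper13.Par.neg_mult`).
-/

set_option autoImplicit false
set_option linter.unusedSectionVars false

namespace Pool.Agent.E8helper84.EH

open Pool.Agent.H302R2 Pool.Agent.H302R3 Pool.Agent.W446.AS Pool.Agent.H541R3.ART Pool.Agent.R389
open Pool.Agent.E8helper13.Par (neg_mult)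
open scoped ComplexConjugate

section

variable {G : Type} [Group G] [Finite G] {θ : G → ℂ}

lemma IsSol.toHeil (hs : IsSol θ) : IsSolHeilbronn θ := ⟨hs.conj, hs.mult⟩

lemma irr_one {χ : G → ℂ} (hχ : χ ∈ Irr G) : ∃ n : ℕ, 0 < n ∧ χ 1 = n := by
  obtain ⟨n, ρ, hρ, rfl⟩ := hχ
  refine ⟨n, ?_, ?_⟩
  · rcases Nat.eq_zero_or_pos n with h | h
    · subst h
      exfalso
      have h1 := (irred_iff ρ).mpr hρ
      have := h1.1
      exact not_subsingleton (Fin 0 → ℂ) inferInstance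
    · exact h
  · rw [Representation.char_one]
    simp

/-- the square of the distance from a multiple of an irreducible character -/
lemma dist_sq [Fintype G] (f : G → ℂ) {χ : G → ℂ} (hχ : χ ∈ Irr G) {k : ℤ} (hk : pr f χ = k) :
    ∑ g : G, ‖f g - k * χ g‖ ^ 2 = ∑ g : G, ‖f g‖ ^ 2 - (k : ℝ) ^ 2 * Nat.card G := by
  have hv : Virt χ := AddSubgroup.subset_closure hχ
  have h1 : ∀ g : G, ((‖f g - k * χ g‖ ^ 2 : ℝ) : ℂ) = ((‖f g‖ ^ 2 : ℝ) : ℂ)
      - k * (f g * χ g⁻¹) - k * conj (f g * χ g⁻¹) + (k : ℂ) ^ 2 * (χ g * χ g⁻¹) := by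
    intro g
    have e : ∀ z : ℂ, ((‖z‖ ^ 2 : ℝ) : ℂ) = z * conj z := fun z => by
      rw [Complex.mul_conj, Complex.normSq_eq_norm_sq]
    rw [e, e, virt_star hv g]
    simp only [map_sub, map_mul, Complex.conj_conj]
    have : conj (k : ℂ) = (k : ℂ) := map_intCast _ _
    rw [this]
    ring
  have h2 : ∑ g : G, f g * χ g⁻¹ = k * Nat.card G := by rw [sum_eq_pr, hk]
  have h3 : ∑ g : G, χ g * χ g⁻¹ = Nat.card G := by
    rw [sum_eq_pr, pr_self hχ, one_mul]
  have h4 : ((∑ g : G, ‖f g - k * χ g‖ ^ 2 : ℝ) : ℂ)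
      = ((∑ g : G, ‖f g‖ ^ 2 - (k : ℝ) ^ 2 * Nat.card G : ℝ) : ℂ) := by
    rw [Complex.ofReal_sum, Finset.sum_congr rfl (fun g _ => h1 g), Finset.sum_add_distrib,
      Finset.sum_sub_distrib, Finset.sum_sub_distrib, ← Finset.mul_sum, ← Finset.mul_sum,
      ← Finset.mul_sum, ← map_sum, h2, h3]
    push_cast
    have : conj ((k : ℂ) * (Nat.card G : ℂ)) = (k : ℂ) * (Nat.card G : ℂ) := by
      rw [map_mul, map_intCast, map_natCast]
    rw [this]
    ring
  exact_mod_cast h4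

/-- a class function of norm at most two, with a positive value at `1`, has multiplicities `≥ -1` -/
lemma ge_neg_one {f : G → ℂ} (hf : ∀ g, ‖f g‖ ≤ 2) {a : ℝ} (ha : 0 < a) (h1 : f 1 = a)
    {χ : G → ℂ} (hχ : χ ∈ Irr G) {k : ℤ} (hk : pr f χ = k) : -1 ≤ k := by
  classical
  have : Fintype G := Fintype.ofFinite G
  by_contra hlt
  have hk2 : k ≤ -2 := by omega
  obtain ⟨n, hn, hn1⟩ := irr_one hχ
  have h2 := dist_sq f hχ hk
  have h3 : ∑ g : G, ‖f g‖ ^ 2 ≤ 4 * Nat.card G := by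
    have : ∑ g : G, ‖f g‖ ^ 2 ≤ ∑ _g : G, (4 : ℝ) :=
      Finset.sum_le_sum fun g _ => by nlinarith [hf g, norm_nonneg (f g)]
    refine this.trans (le_of_eq ?_)
    rw [Finset.sum_const, Finset.card_univ, nsmul_eq_mul, ← Nat.card_eq_fintype_card]
    ring
  have h4 : 0 < ∑ g : G, ‖f g - k * χ g‖ ^ 2 := by
    refine lt_of_lt_of_le ?_ (Finset.single_le_sum (f := fun g : G => ‖f g - k * χ g‖ ^ 2)
      (fun g _ => by positivity) (Finset.mem_univ 1))
    have h5 : f 1 - k * χ 1 = ((a - k * n : ℝ) : ℂ) := by rw [h1, hn1]; push_cast; ring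
    simp only [h5, Complex.norm_real, Real.norm_eq_abs]
    have h6 : (k : ℝ) ≤ -2 := by exact_mod_cast hk2
    have h7 : (0 : ℝ) < n := by exact_mod_cast hn
    have h8 : 0 < a - k * n := by nlinarith
    positivity
  have h6 : (k : ℝ) ≤ -2 := by exact_mod_cast hk2
  have h7 : (0 : ℝ) < Nat.card G := by exact_mod_cast Nat.card_pos
  have h8 : (4 : ℝ) ≤ (k : ℝ) ^ 2 := by nlinarith
  have h9 : 4 * (Nat.card G : ℝ) ≤ (k : ℝ) ^ 2 * Nat.card G :=
    mul_le_mul_of_nonneg_right h8 h7.le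
  linarith

/-- **Degree at most two**: all multiplicities are at least `-1`, and they are nonnegative for
characters of odd degree. -/
theorem irr_two (hv : Virt θ) (hs : IsSol θ) {r : ℕ} (hr : r ≤ 2) (h1 : θ 1 = r) {χ : G → ℂ}
    (hχ : χ ∈ Irr G) {k : ℤ} (hk : pr θ χ = k) : -1 ≤ k ∧ ((∀ m : ℕ, χ 1 ≠ 2 * m) → 0 ≤ k) := by
  classical
  have : Fintype G := Fintype.ofFinite G
  interval_cases r
  · -- degree zero
    have h2 : ∀ g, θ g = 0 := by
      intro g
      have := hs.norm_le g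
      rw [h1] at this
      simpa using this
    have h3 : pr θ χ = 0 := by
      have : θ = 0 := funext h2
      rw [this, pr_zero_left]
    rw [h3] at hk
    have h4 : k = 0 := by exact_mod_cast hk.symm
    subst h4
    exact ⟨by norm_num, fun _ => le_rfl⟩
  · -- degree one
    obtain ⟨ψ, hψ⟩ := hs.deg_one (by simpa using h1)
    have h2 : θ = fun g => ((ψ g : ℂˣ) : ℂ) := funext hψ
    have h3 : 0 ≤ k := by
      by_cases h4 : (fun g => ((ψ g : ℂˣ) : ℂ)) = χ
      · rw [h2, ← h4, pr_self (lin_irr ψ)] at hk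
        have : k = 1 := by exact_mod_cast hk.symm
        omega
      · rw [h2, pr_ne (lin_irr ψ) hχ h4] at hk
        have : k = 0 := by exact_mod_cast hk.symm
        omega
    exact ⟨by omega, fun _ => h3⟩
  · obtain ⟨δ, hδ⟩ := hs.exists_det (by simpa using h1)
    by_cases h2 : ∃ m : ℕ, pr θ χ = m
    · obtain ⟨m, hm⟩ := h2
      rw [hk] at hm
      have h3 : k = m := by exact_mod_cast hm
      subst h3
      exact ⟨by omega, fun _ => by omega⟩
    · obtain ⟨h3, -, -, m, hm⟩ := neg_mult hv hs.toHeil (by simpa using h1) hδ hχ h2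
      rw [hk] at h3
      have h4 : k = -1 := by exact_mod_cast h3
      subst h4
      exact ⟨le_rfl, fun h => absurd hm (h m)⟩

/-- **Real functions of degree three**, with the bound for all irreducible characters. -/
theorem irr_three (hv : Virt θ) (hs : IsSol θ) (h1 : θ 1 = 3) (hr : ∀ g, θ g⁻¹ = θ g) :
    ∃ D : G →* ℂˣ, (∀ g, D g = 1 ∨ D g = -1) ∧ (∀ (H : Subgroup G) (k : ℤ),
      ∑ᶠ g : H, θ g * (((D g)⁻¹ : ℂˣ) : ℂ) = k * Nat.card H → 0 ≤ k) ∧
      ∀ (H : Subgroup G), ∀ χ ∈ Irr H, ∀ k : ℤ, pr (fun h : H => θ h) χ = k → -1 ≤ k := by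
  classical
  obtain ⟨D, hD⟩ := exists_det3 hv hs h1 hr
  have hDs : ∀ g, D g = 1 ∨ D g = -1 := by
    intro g
    rcases hs.d3_sign h1 hr g with h | h
    · left; apply Units.ext; rw [hD, h]; rfl
    · right; apply Units.ext; rw [hD, h]; simp
  have hDi : ∀ g, (D g)⁻¹ = D g := by
    intro g
    rcases hDs g with h | h
    · rw [h, inv_one]
    · rw [h]; simp
  have hres : ∀ (H : Subgroup G) (k : ℤ),
      ∑ᶠ g : H, θ g * (((D g)⁻¹ : ℂˣ) : ℂ) = k * Nat.card H → 0 ≤ k := by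
    intro H k hk
    exact real_aux (hs.res H) (by simpa using h1) (fun g => hr g) (D := D.comp H.subtype)
      (fun g => hD g) hk
  refine ⟨D, hDs, hres, fun H χ hχ k hk => ?_⟩
  have : Fintype H := Fintype.ofFinite H
  -- the function `θ - D`
  set DH : H →* ℂˣ := D.comp H.subtype with hDH
  by_cases hχD : (fun h => ((DH h : ℂˣ) : ℂ)) = χ
  · have h2 : ∑ᶠ g : H, θ g * (((D g)⁻¹ : ℂˣ) : ℂ) = k * Nat.card H := by
      rw [← hk, ← hχD, finsum_eq_sum_of_fintype, ← sum_eq_pr]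
      refine Finset.sum_congr rfl fun h _ => ?_
      rw [map_inv]
      rfl
    have := hres H k h2
    omega
  set f : H → ℂ := fun h => θ h - ((DH h : ℂˣ) : ℂ) with hf
  have hk' : pr f χ = k := by
    have h2 : f = (fun h : H => θ h) - (fun h => ((DH h : ℂˣ) : ℂ)) := rfl
    rw [h2, pr_sub, hk, pr_ne (lin_irr DH) hχ hχD, sub_zero]
  set η : G → ℂ := fun g => θ g * (((D g)⁻¹ : ℂˣ) : ℂ) with hη
  have hηs : IsSol η := hs.twist D
  have hη1 : η 1 = 3 := by simp [hη, h1]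
  have hηr : ∀ g, η g⁻¹ = η g := by
    intro g
    simp only [hη]
    rw [hr, map_inv, inv_inv, hDi]
  have hηd : ∀ g, d3 η g = 1 := by
    intro g
    have h2 : ((D g : ℂˣ) : ℂ) ^ 2 = 1 := by
      rcases hDs g with h | h
      · rw [h]; simp
      · rw [h]; simp
    have h3 : d3 η g = ((D g : ℂˣ) : ℂ) ^ 3 * d3 θ g := by
      unfold d3
      simp only [hη, hDi, map_pow, Units.val_pow_eq_pow_val]
      ring
    rw [h3, ← hD]
    calc ((D g : ℂˣ) : ℂ) ^ 3 * ((D g : ℂˣ) : ℂ) = (((D g : ℂˣ) : ℂ) ^ 2) ^ 2 := by ring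
      _ = 1 := by rw [h2, one_pow]
  have hge : ∀ g, -1 ≤ (η g).re := fun g => re_ge hηs hη1 hηr (hηd g)
  have hreal : ∀ g, η g = ((η g).re : ℂ) := by
    intro g
    have h2 : (star (η g) : ℂ) = η g := by rw [← hηs.inv_star, hηr]
    have h3 : conj (η g) = η g := h2
    exact (Complex.conj_eq_iff_re.mp h3).symm
  have hle : ∀ g, ‖η g - 1‖ ≤ 2 := by
    intro g
    have h2 := hηs.norm_le g
    rw [hη1] at h2
    have h3 : ((3 : ℂ)).re = 3 := rfl
    rw [h3] at h2
    have h4 := Complex.re_le_norm (η g)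
    have h5 := hge g
    rw [hreal g]
    have h6 : ((η g).re : ℂ) - 1 = (((η g).re - 1 : ℝ) : ℂ) := by push_cast; rfl
    rw [h6, Complex.norm_real, Real.norm_eq_abs, abs_le]
    constructor <;> linarith
  refine ge_neg_one (f := f) (a := 2) (fun h => ?_) (by norm_num) ?_ hχ hk'
  · have h2 : f h = (η h - 1) * ((D h : ℂˣ) : ℂ) := by
      simp only [hf, hη, hDH]
      have : (((D (h : G))⁻¹ : ℂˣ) : ℂ) * ((D (h : G) : ℂˣ) : ℂ) = 1 := by
        rw [← Units.val_mul, inv_mul_cancel]; rfl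
      rw [sub_mul, mul_assoc, this, mul_one, one_mul]
      rfl
    rw [h2, norm_mul, norm_char D, mul_one]
    exact hle h
  · simp only [hf, Subgroup.coe_one, h1, map_one, Units.val_one]
    norm_num

end

end Pool.Agent.E8helper84.EH
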